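import Pool.Agent.X324.CG.Defs

/-!
# Groups which permute the factors of a product: definitions
-/

set_option autoImplicit false

namespace Pool.Agent.X324.SA

open Pool.Agent.X324.CF
open Pool.Agent.X324.CG (part)

/-- `β` is a class of the factor `F i` of `F`. -/
def IsOf {ρ : ℕ} {κ : Type*} (c : Fin ρ → κ) (i : κ) (β : Cl ρ) : Prop := ∀ k, c k ≠ i → β k = 0

section Group

variable {V R κ : Type*} [NormedAddCommGroup V] [NormedSpace ℂ V] [CommRing R] [Algebra ℂ R] {ρ : ℕ}
  (𝒜 : Cl ρ → Submodule ℂ R) (c : Fin ρ → κ) (Γ : Grp V R)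

/-- The elements of `Γ` permute the factors `F i`: each element maps the classes of `F i` to classes of
`F (π i)`, for some permutation `π` of the factors. -/
def Permutes : Prop :=
  ∀ γ ∈ Γ, ∀ σ, Induces 𝒜 γ.2 σ → ∃ π : Equiv.Perm κ, ∀ i β, IsOf c i β → IsOf c (π i) (σ β)

/-- The class `β` is invariant under the elements of `Γ` which map the factor `F i` to itself. -/
def InvAt (i : κ) (β : Cl ρ) : Prop :=
  ∀ γ ∈ Γ, ∀ σ, Induces 𝒜 γ.2 σ → (∀ β', IsOf c i β' → IsOf c i (σ β')) → σ β = β

/-- The classes of `F i` which are invariant under the elements of `Γ` which map `F i` to itself form a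
group of rank one: they are rational multiples of the component of the ample class `u`. -/
def RankOneAt [DecidableEq κ] (u : Cl ρ) (i : κ) : Prop :=
  ∀ β, IsOf c i β → InvAt 𝒜 c Γ i β → ∃ a b : ℤ, a ≠ 0 ∧ a • β = b • part c i u

end Group

end Pool.Agent.X324.SA
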