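import Pool.Agent.X324.SA.Nef
import Pool.Agent.X324.SA.CritDefs

/-!
# Nef sheaves on `(A × F) / G` and invariant nef classes of the factors of `F`
-/

set_option autoImplicit false
set_option linter.unusedSectionVars false

namespace Pool.Agent.X324.SA

open Finset
open Pool.Agent.W594.SYZ2 Pool.Agent.W594.SYZ2.TQ Pool.Agent.TH735.AQ
open Pool.Agent.X324.CF Pool.Agent.X324.CG

variable {V E R : Type*} [NormedAddCommGroup V] [NormedSpace ℂ V] [FiniteDimensional ℂ V]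
  [NormedAddCommGroup E] [NormedSpace ℂ E] [FiniteDimensional ℂ E] [CommRing R] [IsDomain R]
  [Algebra ℂ R] {ρ : ℕ}
  {𝒜 : Cl ρ → Submodule ℂ R} [GradedAlgebra 𝒜] {Γ : Grp V R}
  {u : Cl ρ} {j : E →ₗ[ℂ] V} {κ : Type*} [DecidableEq κ] [Fintype κ] {c : Fin ρ → κ}

/-- The degree of a semiample sheaf is semiample. -/
theorem deg_semi {𝓛 : Sheaf 𝒜 Γ} (h : 𝓛.IsSemiample u) : SemiampleF 𝒜 u 𝓛.deg := by
  obtain ⟨m, hm, h1⟩ := h
  refine ⟨m, hm, fun p hp => ?_⟩
  obtain ⟨f, hf, hf0⟩ := h1 0 p hp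
  exact ⟨f 0, hf.mem 0, hf0⟩

theorem semi_of_nsmul {β : Cl ρ} {k : ℕ} (hk : 0 < k) (h : SemiampleF 𝒜 u (k • β)) :
    SemiampleF 𝒜 u β := by
  obtain ⟨m, hm, h1⟩ := h
  have h2 : (m * k) • β = m • k • β := mul_smul m k β
  refine ⟨m * k, Nat.mul_pos hm hk, fun p hp => ?_⟩
  rw [h2]
  exact h1 p hp

/-- A class with form zero and nef degree is nef. -/
theorem nef_deg (hF : IsCoxRing 𝒜 u) (hQ : IsQuotient 𝒜 u Γ) {a : N1 𝒜 Γ j}
    (h0 : (val a).1 = 0) (h : (val a).2 ∈ KQ {β | SemiampleF 𝒜 u β} (LG 𝒜 Γ)) :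
    a ∈ nefCone 𝒜 Γ j u := by
  obtain ⟨d, D⟩ := hF.sys_nef (𝒮 := gal Γ) fun φ hφ => gal_aut hQ hφ
  have hsub : ∀ x ∈ KQ {β | SemiampleF 𝒜 u β} (LG 𝒜 Γ), x ∈ Bs 𝒜 Γ := by
    rw [Bs_eq]
    intro x hx
    exact KQ_sub_UL hx
  have hab : a = i2 D.base hQ ⟨(val a).2, hsub _ h⟩ := by
    apply val_ext
    rw [val_i2]
    exact Prod.ext h0 rfl
  have hcont : Continuous (i2 D.base hQ : Bs 𝒜 Γ →ₗ[ℝ] N1 𝒜 Γ j) := by
    have hind : Topology.IsInducing (val : N1 𝒜 Γ j → Pairs E ρ) :=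
      Topology.IsInducing.subtypeVal
    rw [hind.continuous_iff]
    exact continuous_const.prodMk continuous_subtype_val
  have hb : (⟨(val a).2, hsub _ h⟩ : Bs 𝒜 Γ) ∈
      closure {b : Bs 𝒜 Γ | b.1 ∈ HQ {β | SemiampleF 𝒜 u β} (LG 𝒜 Γ)} := by
    rw [closure_subtype]
    refine closure_mono (fun x hx => ?_) h
    exact ⟨⟨x, hsub _ (KQ_of_HQ hx)⟩, hx, rfl⟩
  rw [hab]
  refine map_mem_closure hcont hb fun b hb => ?_
  exact hull_le (fun x hx => hull_mem hx.1)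
    (interior_deg D hQ (hF.good_nef hQ D.base) hb)

/-- Nef invariant classes of `F` come from nef sheaves. -/
theorem exists_nef (hF : IsCoxRing 𝒜 u) (hQ : IsQuotient 𝒜 u Γ) {B : Cl ρ} (hB : Inv 𝒜 Γ B)
    (h : rv B ∈ KQ {β | SemiampleF 𝒜 u β} (LG 𝒜 Γ)) :
    ∃ (𝓜 : Sheaf 𝒜 Γ) (x : N1 𝒜 Γ j), IsClass j 𝓜 (val x) ∧ x ∈ nefCone 𝒜 Γ j u ∧
      𝓜.deg = Nat.card (gal Γ) • B := by
  obtain ⟨d, D⟩ := hF.sys_nef (𝒮 := gal Γ) fun φ hφ => gal_aut hQ hφ
  obtain ⟨a, ha1, ha2⟩ := exists_degclass (j := j) D.base hQ hB 1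
  refine ⟨_, a, ha1, nef_deg hF hQ (by rw [ha2]) ?_, ?_⟩
  · rw [ha2]
    exact cl_smul (Nat.cast_nonneg _) h
  · change Nat.card (gal Γ) • (1 • B) = _
    rw [one_smul]

theorem isOf_zero {i i' : κ} (h : i ≠ i') {β : Cl ρ} (h1 : IsOf c i β) (h2 : IsOf c i' β) :
    β = 0 := by
  funext k
  by_cases hk : c k = i
  · exact h2 k (by rw [hk]; exact h)
  · exact h1 k hk

theorem part_isOf {i : κ} {β : Cl ρ} (h : IsOf c i β) : part c i β = β := by
  funext k
  rw [part_apply]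
  split_ifs with hk
  · rfl
  · exact (h k hk).symm

theorem part_isOf_ne {i i' : κ} (hi : i' ≠ i) {β : Cl ρ} (h : IsOf c i' β) : part c i β = 0 := by
  funext k
  rw [part_apply]
  split_ifs with hk
  · exact h k (by rw [hk]; exact hi.symm)
  · rfl

/-- The components of an invariant class are invariant under the stabilisers of the factors. -/
theorem part_inv (hperm : Permutes 𝒜 c Γ) {β : Cl ρ} (hβ : Inv 𝒜 Γ β) (i : κ) :
    InvAt 𝒜 c Γ i (part c i β) := by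
  intro γ hγ σ hσ hst
  obtain ⟨π, hπ⟩ := hperm γ hγ σ hσ
  have h1 : σ β = β := hβ γ hγ σ hσ
  have h2 : ∀ i', i' ≠ i → part c i (σ (part c i' β)) = 0 := by
    intro i' hi
    by_cases hπi : π i' = i
    · have hne : i ≠ π i := by
        intro h
        exact hi (π.injective (hπi.trans h))
      have h3 : ∀ β', IsOf c i β' → β' = 0 := by
        intro β' hβ'
        have h4 : σ β' = 0 := isOf_zero hne (hst β' hβ') (hπ i β' hβ')
        exact (map_eq_zero_iff σ σ.injective).1 h4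
      exact h3 _ (part_BL i _)
    · exact part_isOf_ne hπi (hπ i' _ (part_BL i' β))
  have h5 : part c i β = part c i (σ (part c i β)) := by
    calc part c i β = part c i (σ (∑ i', part c i' β)) := by rw [sum_part, h1]
      _ = ∑ i', part c i (σ (part c i' β)) := by
        rw [← partH_apply, map_sum, map_sum]
        rfl
      _ = part c i (σ (part c i β)) :=
        Finset.sum_eq_single i (fun i' _ hi => h2 i' hi) fun h => absurd (mem_univ _) h
  rw [part_isOf (hst _ (part_BL i β))] at h5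
  exact h5.symm

/-- The component of the sum of the translates of an invariant class of a factor. -/
theorem sum_perm (hF : IsCoxRing 𝒜 u) (hQ : IsQuotient 𝒜 u Γ) [Fintype (gal Γ)]
    (hperm : Permutes 𝒜 c Γ) {i : κ} {β : Cl ρ} (hβ : IsOf c i β) (hinv : InvAt 𝒜 c Γ i β) :
    ∃ N : ℕ, 0 < N ∧ part c i (∑ φ : gal Γ, perm hQ φ β) = N • β := by
  have key : ∀ φ : gal Γ, ∃ n : ℕ, part c i (perm hQ φ β) = n • β ∧ (φ = 1 → n = 1) := by
    intro φ
    obtain ⟨γ, hγ, h1⟩ := φ.2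
    have h2 : γ.2 = φ.1 := h1
    have hσ : Induces 𝒜 γ.2 (perm hQ φ) := by
      rw [h2]
      exact perm_spec hQ φ
    by_cases hst : ∀ β', IsOf c i β' → IsOf c i (perm hQ φ β')
    · refine ⟨1, ?_, fun _ => rfl⟩
      rw [hinv γ hγ _ hσ hst, one_smul]
      exact part_isOf hβ
    · refine ⟨0, ?_, fun h => absurd ?_ hst⟩
      · obtain ⟨π, hπ⟩ := hperm γ hγ _ hσ
        rw [zero_smul]
        refine part_isOf_ne (fun h => hst fun β' hβ' => ?_) (hπ i β hβ)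
        have h3 := hπ i β' hβ'
        rwa [h] at h3
      · have h4 : perm hQ φ = AddEquiv.refl (Cl ρ) := by
          refine ind_unique hF.gens (perm_spec hQ φ) ?_
          rw [h]
          exact ind_one
        intro β' hβ'
        rw [h4]
        exact hβ'
  choose n hn hn1 using key
  refine ⟨∑ φ : gal Γ, n φ, ?_, ?_⟩
  · refine Finset.sum_pos' (fun _ _ => Nat.zero_le _) ⟨1, mem_univ _, ?_⟩
    rw [hn1 1 rfl]
    exact one_pos
  · rw [← partH_apply, map_sum, Finset.sum_smul]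
    exact Finset.sum_congr rfl fun φ _ => hn φ

/-- If the degrees of the nef sheaves on `X` are semiample, then the nef classes of `F i` which are
invariant under the stabiliser of `F i` are semiample. -/
theorem factor_semi (hF : IsCoxRing 𝒜 u) (hprod : IsProduct 𝒜 c) (hQ : IsQuotient 𝒜 u Γ)
    (hperm : Permutes 𝒜 c Γ)
    (H : ∀ (𝓛 : Sheaf 𝒜 Γ) (x : N1 𝒜 Γ j), IsClass j 𝓛 (val x) → x ∈ nefCone 𝒜 Γ j u →
      ∃ n : ℕ, 0 < n ∧ SemiampleF 𝒜 u (n • 𝓛.deg))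
    {i : κ} {β : Cl ρ} (hβ : IsOf c i β) (hinv : InvAt 𝒜 c Γ i β)
    (hnef : real β ∈ nefF 𝒜 u c i) : SemiampleF 𝒜 u β := by
  have := hQ.fin_gal
  have : Fintype (gal Γ) := Fintype.ofFinite _
  obtain ⟨d, D⟩ := hF.sys_nef (𝒮 := gal Γ) fun φ hφ => gal_aut hQ hφ
  have hle : BL c i ≤ (⊤ : AddSubgroup (Cl ρ)) := le_top
  have h0 : rv β ∈ KQ {β | SemiampleF 𝒜 u β} (BL c i) := hnef
  have h1 := avg_KQ D hQ le_rfl (KQ_le hle h0)
  rw [avg_rv] at h1
  obtain ⟨𝓜, x, hc, hx, hdeg⟩ := exists_nef (j := j) hF hQ (sum_Inv D hQ β) h1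
  obtain ⟨n, hn, h2⟩ := H 𝓜 x hc hx
  rw [hdeg] at h2
  have h3 := semi_of_nsmul Nat.card_pos (semi_of_nsmul hn h2)
  have h4 := hprod.semi i h3
  obtain ⟨N, hN, h5⟩ := sum_perm hF hQ hperm hβ hinv
  rw [h5] at h4
  exact semi_of_nsmul hN h4

/-- A nef class of `F i` is semiample if it is a rational multiple of the ample class. -/
theorem semi_of_rank_one (hF : IsCoxRing 𝒜 u) (hprod : IsProduct 𝒜 c) {i : κ} {β : Cl ρ}
    (hnef : real β ∈ nefF 𝒜 u c i) {a b : ℤ} (ha : a ≠ 0) (h : a • β = b • part c i u) :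
    SemiampleF 𝒜 u β := by
  obtain ⟨d, D⟩ := hF.sys_nef (𝒮 := (⊥ : Subgroup (R ≃ₐ[ℂ] R))) fun φ hφ => by
    rw [Subgroup.mem_bot] at hφ
    subst hφ
    exact ⟨⟨_, ind_one⟩, fun p => Iff.rfl⟩
  have hu : SemiampleF 𝒜 u (part c i u) := by
    refine hprod.semi i ?_
    obtain ⟨m, hm⟩ := hF.ample u
    have h1 : u + m • u = (m + 1) • u := by rw [add_smul, one_smul, add_comm]
    rw [h1] at hm
    exact semi_of_nsmul m.succ_pos hm
  have key : ∀ (β' : Cl ρ) (a : ℕ) (b : ℕ), 0 < a → (a : ℤ) • β' = (b : ℤ) • part c i u →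
      SemiampleF 𝒜 u β' := by
    intro β' a b ha h
    refine semi_of_nsmul ha ?_
    rw [← natCast_zsmul, h, natCast_zsmul]
    exact hu.nsmul b
  have hzero : SemiampleF 𝒜 u (-β) → SemiampleF 𝒜 u β := by
    intro hneg
    have h1 : rv β ∈ KQ {β | SemiampleF 𝒜 u β} (BL c i) := hnef
    have h2 : rv (-β) ∈ KQ {β | SemiampleF 𝒜 u β} ⊤ := KQ_of_HQ (HQ_mem hneg trivial)
    have h3 : β = 0 := by
      funext k
      have h4 := D.bound_KQ h1 k
      have h5 := D.bound_KQ h2 k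
      rw [rv_neg, map_neg, Pi.neg_apply, abs_neg] at h5
      have h6 : |rv β k| ≤ 0 := by linarith
      have h7 : rv β k = 0 := abs_eq_zero.1 (le_antisymm h6 (abs_nonneg _))
      rw [rv_apply] at h7
      exact_mod_cast h7
    rw [h3]
    exact SemiampleF.zero
  rcases le_total 0 b with hb | hb <;> rcases lt_or_gt_of_ne ha with ha' | ha'
  · -- `a < 0 ≤ b`
    apply hzero
    refine key (-β) a.natAbs b.natAbs (Int.natAbs_pos.2 ha) ?_
    rw [Int.natCast_natAbs, Int.natCast_natAbs, abs_of_neg ha', abs_of_nonneg hb, neg_smul,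
      smul_neg, neg_neg, h]
  · refine key β a.natAbs b.natAbs (Int.natAbs_pos.2 ha) ?_
    rw [Int.natCast_natAbs, Int.natCast_natAbs, abs_of_pos ha', abs_of_nonneg hb, h]
  · refine key β a.natAbs b.natAbs (Int.natAbs_pos.2 ha) ?_
    rw [Int.natCast_natAbs, Int.natCast_natAbs, abs_of_neg ha', abs_of_nonpos hb, neg_smul,
      neg_smul, h]
  · apply hzero
    refine key (-β) a.natAbs b.natAbs (Int.natAbs_pos.2 ha) ?_
    rw [Int.natCast_natAbs, Int.natCast_natAbs, abs_of_pos ha', abs_of_nonpos hb, smul_neg,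
      neg_smul, h]

end Pool.Agent.X324.SA
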