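import Pool.Agent.X324.SA.Core

/-!
# Nef classes on `(A × F) / G` and on the factors of `F`
-/

set_option autoImplicit false
set_option linter.unusedSectionVars false

namespace Pool.Agent.X324.SA

open Finset
open Pool.Agent.W594.SYZ2 Pool.Agent.W594.SYZ2.TQ Pool.Agent.TH735.AQ
open Pool.Agent.X324.CF Pool.Agent.X324.CG

variable {V E R : Type*} [NormedAddCommGroup V] [NormedSpace ℂ V] [FiniteDimensional ℂ V]
  [NormedAddCommGroup E] [NormedSpace ℂ E] [FiniteDimensional ℂ E] [CommRing R] [IsDomain R]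
  [Algebra ℂ R] {ρ : ℕ}
  {𝒜 : Cl ρ → Submodule ℂ R} [GradedAlgebra 𝒜] {Γ : Grp V R}
  {u : Cl ρ} {j : E →ₗ[ℂ] V} {κ : Type*} [DecidableEq κ] [Fintype κ] {c : Fin ρ → κ}

theorem base_of (hF : IsCoxRing 𝒜 u) : Base 𝒜 (Fin.elim0 : Fin 0 → Cl ρ) where
  gens := hF.gens
  pointed := fun _ _ => Subsingleton.elim _ _

/-- A nef class has a semidefinite form and a nef degree. -/
theorem nef_sub (hF : IsCoxRing 𝒜 u) (hQ : IsQuotient 𝒜 u Γ) {x : N1 𝒜 Γ j}
    (hx : x ∈ nefCone 𝒜 Γ j u) :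
    (∀ e, 0 ≤ ((val x).1 e e).re) ∧ (val x).2 ∈ KQ {β | SemiampleF 𝒜 u β} (LG 𝒜 Γ) :=
  closure_minimal (fun _ ha => hull_ind (p := fun a => a ∈ KK2 𝒜 Γ j {β | SemiampleF 𝒜 u β})
    KK2_zero (fun _ _ h1 h2 => KK2_add h1 h2) (fun _ _ ht h => KK2_smul ht h)
    (fun a ha => (hF.good_nef hQ (base_of hF)).KK ha) ha) KK2_closed hx

/-- The components of a nef degree are nef. -/
theorem part_nef (hprod : IsProduct 𝒜 c) (i : κ) {b : Fin ρ → ℝ}
    (hb : b ∈ KQ {β | SemiampleF 𝒜 u β} (LG 𝒜 Γ)) : partR c i b ∈ nefF 𝒜 u c i := by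
  have hle : LG 𝒜 Γ ≤ (⊤ : AddSubgroup (Cl ρ)) := le_top
  exact part_KQ (𝒬 := {β | SemiampleF 𝒜 u β}) (fun i β h => hprod.semi i h) i (KQ_le hle hb)

/-- The components of a pseudoeffective degree are pseudoeffective. -/
theorem part_psef (hprod : IsProduct 𝒜 c) (i : κ) {x : N1 𝒜 Γ j}
    (hx : x ∈ closure (effCone 𝒜 Γ j)) : partR c i (val x).2 ∈ closure (effF 𝒜 c i) := by
  have hval : Continuous (fun x : N1 𝒜 Γ j => partR c i (val x).2) :=
    (LinearMap.continuous_of_finiteDimensional (partR c i)).comp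
      (continuous_snd.comp continuous_subtype_val)
  refine map_mem_closure (f := fun x : N1 𝒜 Γ j => partR c i (val x).2) hval hx fun a ha => ?_
  have h1 := effCone_deg ha
  have hle : LG 𝒜 Γ ≤ (⊤ : AddSubgroup (Cl ρ)) := le_top
  exact part_EQ (fun i β h => hprod.eff i β h) i (EQ_le hle h1)

/-- A sum of semiample components is semiample. -/
theorem semi_of_parts {β : Cl ρ} (h : ∀ i, SemiampleF 𝒜 u (part c i β)) : SemiampleF 𝒜 u β := by
  rw [← sum_part c β]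
  exact SemiampleF.sum _ _ fun i _ => h i

end Pool.Agent.X324.SA
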