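import Pool.Agent.X302.SA.Bpf

/-!
# Ample line bundles on torus quotients have globally generated powers
-/

set_option autoImplicit false

namespace Pool.Agent.X324.SA

open Pool.Agent.W594.SYZ2 Pool.Agent.W594.SYZ2.TQ Pool.Agent.TH735.AQ
open Pool.Agent.X302.SA (IsGloballyGenerated exists_gg dual chern_dual chern_tensor' chern_pow)

/-! ### Real functionals and hermitian forms -/

section Vec

variable {V : Type*} [NormedAddCommGroup V] [NormedSpace ℂ V] {K : V → V → ℂ}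

theorem vec_inj (hK : IsHermitian K) (hp : IsPositiveForm K) {a b : V}
    (h : ∀ v, (K v a).im = (K v b).im) : a = b := by
  by_contra hne
  have h0 : a - b ≠ 0 := sub_ne_zero.2 hne
  have h1 := hp (a - b) h0
  have h2 := h (Complex.I • (a - b))
  have h3 : K (Complex.I • (a - b)) (a - b)
      = K (Complex.I • (a - b)) a - K (Complex.I • (a - b)) b := by
    have h4 := h_add_right hK (Complex.I • (a - b)) (a - b) b
    rw [sub_add_cancel] at h4
    rw [h4]
    ring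
  have h5 : (K (Complex.I • (a - b)) (a - b)).im = 0 := by
    rw [h3, Complex.sub_im, h2, sub_self]
  rw [hK.smul_left, Complex.I_mul_im] at h5
  linarith

/-- Every real functional is the imaginary part of the product with a vector. -/
theorem exists_vec [FiniteDimensional ℂ V] (hK : IsHermitian K) (hp : IsPositiveForm K)
    (ℓ : V →ₗ[ℝ] ℝ) : ∃ y, ∀ v, ℓ v = (K v y).im := by
  have : FiniteDimensional ℝ V := FiniteDimensional.complexToReal V
  let T : V →ₗ[ℝ] (V →ₗ[ℝ] ℝ) := LinearMap.mk₂ ℝ (fun y v => (K v y).im)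
    (fun y y' v => by rw [h_add_right hK, Complex.add_im])
    (fun c y v => by
      rw [← Complex.coe_smul, h_smul_right hK, Complex.conj_ofReal, Complex.im_ofReal_mul,
        smul_eq_mul])
    (fun y v v' => by rw [hK.add_left, Complex.add_im])
    (fun c y v => by
      rw [← Complex.coe_smul, hK.smul_left, Complex.im_ofReal_mul, smul_eq_mul])
  have hinj : Function.Injective T := by
    intro a b h
    exact vec_inj hK hp fun v => LinearMap.congr_fun h v
  have hfr : Module.finrank ℝ V = Module.finrank ℝ (V →ₗ[ℝ] ℝ) :=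
    (Subspace.dual_finrank_eq (K := ℝ) (V := V)).symm
  obtain ⟨y, hy⟩ := (LinearMap.injective_iff_surjective_of_finrank_eq_finrank hfr).1 hinj ℓ
  exact ⟨y, fun v => (LinearMap.congr_fun hy v).symm⟩

end Vec

variable {V : Type*} [NormedAddCommGroup V] [NormedSpace ℂ V] {Γ : Subgroup (V ≃ᵃ[ℂ] V)}

/-! ### Translates of line bundles -/

theorem act_translate {y : V} (hy : ∀ γ ∈ Γ, (γ : V ≃ᵃ[ℂ] V).linear y = y) (γ : Γ) (v : V) :
    (γ : V ≃ᵃ[ℂ] V) (v + y) = (γ : V ≃ᵃ[ℂ] V) v + y := by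
  rw [act_add, hy _ γ.2]

/-- The translate of a line bundle by a vector which is invariant under the linear parts. -/
def translate (L : LineBundle Γ) (y : V) (hy : ∀ γ ∈ Γ, (γ : V ≃ᵃ[ℂ] V).linear y = y) :
    LineBundle Γ where
  e := fun γ v => L.e γ (v + y)
  holo := fun γ => (L.holo γ).comp (differentiable_id.add_const y)
  ne_zero := fun γ v => L.ne_zero γ _
  mul := fun γ δ v => by rw [L.mul, act_translate hy]
  stab := fun γ v h => L.stab γ _ (by rw [act_translate hy, h])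

theorem translate_gg {L : LineBundle Γ} {y : V} (hy : ∀ γ ∈ Γ, (γ : V ≃ᵃ[ℂ] V).linear y = y)
    (h : IsGloballyGenerated L) : IsGloballyGenerated (translate L y hy) := by
  intro v
  obtain ⟨s, hs, h0⟩ := h (v + y)
  refine ⟨fun w => s (w + y), ⟨hs.holo.comp (differentiable_id.add_const y), fun γ w => ?_⟩, h0⟩
  change s ((γ : V ≃ᵃ[ℂ] V) w + y) = L.e γ (w + y) * s (w + y)
  rw [← act_translate hy, hs.eq]

variable {L : LineBundle Γ} {H : V → V → ℂ} {F : V → ℂ}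

theorem hl_holo [FiniteDimensional ℂ V] (hH : IsHermitian H) (y : V) :
    Differentiable ℂ fun v => H v y := by
  have h1 : (fun v => H v y) = LinearMap.toContinuousLinearMap (hl hH y) := rfl
  rw [h1]
  exact ContinuousLinearMap.differentiable _

theorem translate_pot [FiniteDimensional ℂ V] (hH : IsHermitian H) (hF : IsPot L H F) {y : V}
    (hy : ∀ γ ∈ Γ, (γ : V ≃ᵃ[ℂ] V).linear y = y) :
    IsPot (translate L y hy) H (fun v => F (v + y) + Real.pi * H v y) := by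
  refine ⟨(hF.1.comp (differentiable_id.add_const y)).add
    ((hl_holo hH y).const_mul (Real.pi : ℂ)), fun γ v => ?_⟩
  change ‖L.e γ (v + y)‖ ^ 2 = _
  rw [hF.2, act_translate hy, h_diag_add hH, h_diag_add hH]
  congr 1
  simp only [Complex.add_re, Complex.re_ofReal_mul]
  ring

/-! ### Potentials -/

theorem tw_tensor (L M : LineBundle Γ) (F G : V → ℂ) (γ : Γ) (v : V) :
    tw (tensor L M) (fun v => F v + G v) γ v = tw L F γ v * tw M G γ v := by
  change L.e γ v * M.e γ v * Complex.exp _ = (L.e γ v * Complex.exp _) * (M.e γ v * Complex.exp _)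
  rw [mul_mul_mul_comm, ← Complex.exp_add]
  congr 2
  ring

theorem tw_pow' (L : LineBundle Γ) (F : V → ℂ) (n : ℕ) (γ : Γ) (v : V) :
    tw (L.pow n) (fun v => (n : ℂ) * F v) γ v = tw L F γ v ^ n := by
  change L.e γ v ^ n * Complex.exp _ = (L.e γ v * Complex.exp _) ^ n
  rw [mul_pow, ← Complex.exp_nat_mul]
  congr 2
  ring

theorem tw_dual (L : LineBundle Γ) (F : V → ℂ) (γ : Γ) (v : V) :
    tw (dual L) (fun v => -F v) γ v = (tw L F γ v)⁻¹ := by
  change (L.e γ v)⁻¹ * Complex.exp _ = (L.e γ v * Complex.exp _)⁻¹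
  rw [mul_inv, ← Complex.exp_neg]
  congr 2
  ring

theorem tw_translate {y : V} (hy : ∀ γ ∈ Γ, (γ : V ≃ᵃ[ℂ] V).linear y = y) (γ : Γ) (v : V) :
    tw (translate L y hy) (fun v => F (v + y) + Real.pi * H v y) γ v
      = tw L F γ (v + y) * Complex.exp (Real.pi * H v y - Real.pi * H ((γ : V ≃ᵃ[ℂ] V) v) y) := by
  change L.e γ (v + y) * Complex.exp _ = (L.e γ (v + y) * Complex.exp _) * Complex.exp _
  rw [mul_assoc, ← Complex.exp_add, act_translate hy]
  congr 2
  ring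

section

variable [FiniteDimensional ℂ V]

/-- A line bundle with Chern form zero whose character is torsion is torsion. -/
theorem torsion_of_chi (hΓ : IsTorusQuotient Γ) (hH : IsHermitian H) (hpot : IsPot L H F)
    (h0 : ∀ v w, H v w = 0) {N : ℕ} (hN : 1 ≤ N) (hroot : ∀ b ∈ latt Γ, chi L F b ^ N = 1) :
    ∃ m : ℕ, 1 ≤ m ∧ (L.pow m).IsTrivial := by
  obtain ⟨n, Δ, π, hker, hfib, m, hm, A, HA, -, -, h, hh, hne, heq⟩ :=
    exists_sit hΓ hH hpot (fun v => by rw [h0]; simp) hN fun b hb _ => hroot b hb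
  have hπ : ∀ v, π v = 0 := fun v => (hker v).2 fun w => h0 v w
  refine ⟨m, hm, fun v => (h v)⁻¹, ⟨hh.inv hne, fun γ v => ?_⟩, fun v => inv_ne_zero (hne v)⟩
  have h1 := heq γ 1 (fun v => by
    change π v = π _
    rw [hπ, hπ]) v
  rw [A.stab 1 (π v) rfl, one_mul] at h1
  rw [← h1, mul_inv, mul_left_comm, mul_inv_cancel₀ ((L.pow m).ne_zero _ _), mul_one]

/-- An ample line bundle has a globally generated power. -/
theorem ample_gg (hΓ : IsTorusQuotient Γ) (hc : IsChernForm L H) (hp : IsPositiveForm H) :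
    ∃ N : ℕ, 1 ≤ N ∧ IsGloballyGenerated (L.pow N) := by
  have hn : IsNefForm H := by
    intro v
    by_cases hv : v = 0
    · have : H v v = 0 := by rw [hv]; exact h_zero_left hc.1 0
      rw [this]; simp
    · exact (hp v hv).le
  obtain ⟨m, hm, M, hM, hg⟩ := exists_gg hΓ hc hn
  have hP := chern_tensor' (chern_pow hc m) (chern_dual hM)
  set K : V → V → ℂ := fun v w => (m : ℂ) * H v w with hKdef
  obtain ⟨hK, FM, hFM, hMe⟩ := hM
  have potM : IsPot M K FM := ⟨hFM, hMe⟩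
  have hKp : IsPositiveForm K := by
    intro v hv
    have e1 : (m : ℂ) = ((m : ℝ) : ℂ) := by push_cast; rfl
    change 0 < ((m : ℂ) * H v v).re
    rw [e1, Complex.re_ofReal_mul]
    have h1 : (0 : ℝ) < m := by exact_mod_cast hm
    exact mul_pos h1 (hp v hv)
  set P := tensor (L.pow m) (dual M) with hPdef
  obtain ⟨hP0, FP, hFP, hPe⟩ := hP
  have potP : IsPot P (fun v w => (m : ℂ) * H v w + -K v w) FP := ⟨hFP, hPe⟩
  have hzero : ∀ v w, (m : ℂ) * H v w + -K v w = 0 := fun v w => by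
    simp only [hKdef]
    ring
  obtain ⟨ℓ, hℓinv, hℓ⟩ := exists_inv_real hΓ hP0 potP
  have hcard : 0 < Nat.card (Lin Γ) := by
    have := finite_Lin hΓ
    exact Nat.card_pos
  obtain ⟨n', hn'⟩ := Nat.exists_eq_succ_of_ne_zero hcard.ne'
  set n := Nat.card (Lin Γ) with hndef
  obtain ⟨y, hyℓ⟩ := exists_vec hK hKp ((-(1 / (2 * Real.pi))) • ℓ)
  have hyℓ' : ∀ v, ℓ v = -(2 * Real.pi) * (K v y).im := by
    intro v
    rw [← hyℓ, LinearMap.smul_apply, smul_eq_mul]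
    have := Real.pi_ne_zero
    field_simp
  have hy : ∀ γ ∈ Γ, (γ : V ≃ᵃ[ℂ] V).linear y = y := by
    intro γ hγ
    refine vec_inj hK hKp fun v => ?_
    have h1 := h_inv hK potM ⟨γ, hγ⟩ (γ.linear.symm v) y
    have h2 : γ.linear (γ.linear.symm v) = v := γ.linear.apply_symm_apply v
    change K (γ.linear (γ.linear.symm v)) (γ.linear y) = _ at h1
    rw [h2] at h1
    rw [h1, ← hyℓ, ← hyℓ, LinearMap.smul_apply, LinearMap.smul_apply]
    congr 1
    have h3 := hℓinv γ hγ (γ.linear.symm v)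
    rw [h2] at h3
    exact h3.symm
  set My := translate M y hy with hMy
  have potMy := translate_pot hK potM hy
  set FMy : V → ℂ := fun v => FM (v + y) + Real.pi * K v y with hFMy
  let Q : LineBundle Γ := tensor (P.pow n) (tensor M (dual My))
  let FQ : V → ℂ := fun v => (n : ℂ) * FP v + (FM v + -FMy v)
  have hH0 : IsHermitian (fun _ _ : V => (0 : ℂ)) :=
    ⟨fun _ _ _ => by rw [add_zero], fun _ _ _ => by rw [mul_zero], fun _ _ => by rw [map_zero]⟩
  have htwQ : ∀ (γ : Γ) (v : V), tw Q FQ γ v = tw P FP γ v ^ n * (tw M FM γ v * (tw My FMy γ v)⁻¹) := by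
    intro γ v
    rw [← tw_pow', ← tw_dual, ← tw_tensor, ← tw_tensor]
  have potQ : IsPot Q (fun _ _ => 0) FQ := by
    refine ⟨(hFP.const_mul _).add (hFM.add potMy.1.neg), fun γ v => ?_⟩
    have e1 : ‖tw Q FQ γ v‖ ^ 2 = 1 := by
      rw [htwQ, norm_mul, norm_mul, norm_inv, norm_pow, mul_pow, mul_pow, inv_pow, ← pow_mul,
        mul_comm n 2, pow_mul, tw_norm potP, tw_norm potM, tw_norm potMy, hzero, hzero]
      simp
    have e2 : ‖Q.e γ v‖ ^ 2 = ‖tw Q FQ γ v‖ ^ 2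
        * Real.exp (2 * ((FQ ((γ : V ≃ᵃ[ℂ] V) v)).re - (FQ v).re)) := by
      rw [tw, norm_mul, mul_pow, Complex.norm_exp, ← Real.exp_nat_mul, mul_assoc, ← Real.exp_add,
        Complex.sub_re]
      have : ((2 : ℕ) : ℝ) * ((FQ v).re - (FQ ((γ : V ≃ᵃ[ℂ] V) v)).re)
          + 2 * ((FQ ((γ : V ≃ᵃ[ℂ] V) v)).re - (FQ v).re) = 0 := by
        push_cast; ring
      rw [this, Real.exp_zero, mul_one]
    rw [e2, e1, one_mul]
    congr 1
    simp only [Complex.zero_re]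
    ring
  have hchi : ∀ b ∈ latt Γ, chi Q FQ b ^ 1 = 1 := by
    intro b hb
    rw [pow_one, chi_eq hb, htwQ, hMy, hFMy, tw_translate, zero_add, tw_tr hK potM b hb y,
      h_zero_left hK, mul_zero, zero_sub, tr_apply, add_zero]
    have h1 : tw P FP (tr b hb) 0 ^ n = Complex.exp ((ℓ b : ℂ) * Complex.I) := by
      rw [hℓ b hb (fun w => hzero b w), chi_eq hb]
    have h2 := tw_ne_zero (L := M) (F := FM) (tr b hb) 0
    rw [h1, mul_inv, mul_inv, mul_assoc (tw M FM (tr b hb) 0)⁻¹, ← mul_assoc (tw M FM (tr b hb) 0),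
      mul_inv_cancel₀ h2, one_mul, ← Complex.exp_neg, ← Complex.exp_neg, ← Complex.exp_add,
      ← Complex.exp_add]
    have h3 : K y b = starRingEnd ℂ (K b y) := hK.symm b y
    have h4 : (ℓ b : ℂ) * Complex.I + (-(Real.pi * K y b) + -(-(Real.pi * K b y))) = 0 := by
      rw [h3, hyℓ']
      apply Complex.ext
      · simp
      · simp
        ring
    rw [h4, Complex.exp_zero]
  obtain ⟨k, hk, h, hh, hhne⟩ := torsion_of_chi hΓ hH0 potQ (fun _ _ => rfl) le_rfl hchi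
  refine ⟨m * n * k, Nat.mul_pos (Nat.mul_pos hm hcard) hk, fun v => ?_⟩
  obtain ⟨s, hs, hs0⟩ := hg v
  obtain ⟨t, ht, ht0⟩ := translate_gg hy hg v
  refine ⟨fun v => s v ^ (n' * k) * t v ^ k * h v,
    ⟨((hs.holo.pow _).mul (ht.holo.pow _)).mul hh.holo, fun γ w => ?_⟩,
    mul_ne_zero (mul_ne_zero (pow_ne_zero _ hs0) (pow_ne_zero _ ht0)) (hhne v)⟩
  have h1 := hs.eq γ w
  have h2 := ht.eq γ w
  have h3 := hh.eq γ w
  change h ((γ : V ≃ᵃ[ℂ] V) w)
    = ((L.e γ w ^ m * (M.e γ w)⁻¹) ^ n * (M.e γ w * (My.e γ w)⁻¹)) ^ k * h w at h3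
  change s ((γ : V ≃ᵃ[ℂ] V) w) ^ (n' * k) * t ((γ : V ≃ᵃ[ℂ] V) w) ^ k * h ((γ : V ≃ᵃ[ℂ] V) w)
    = L.e γ w ^ (m * n * k) * (s w ^ (n' * k) * t w ^ k * h w)
  rw [h1, h2, h3, hn']
  have h4 := M.ne_zero γ w
  have h5 := My.ne_zero γ w
  rw [← hMy]
  simp only [Nat.succ_eq_add_one]
  generalize M.e γ w = a at *
  generalize My.e γ w = b at *
  generalize L.e γ w = c at *
  have e1 : ((c ^ m * a⁻¹) ^ (n' + 1) * (a * b⁻¹)) ^ k
      = c ^ (m * (n' + 1) * k) * (a⁻¹) ^ (n' * k) * (b⁻¹) ^ k := by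
    have e2 : (c ^ m * a⁻¹) ^ (n' + 1) * (a * b⁻¹)
        = c ^ (m * (n' + 1)) * (a⁻¹) ^ n' * b⁻¹ := by
      rw [mul_pow, ← pow_mul, pow_succ (a⁻¹)]
      field_simp
    rw [e2, mul_pow, mul_pow, ← pow_mul, ← pow_mul]
  rw [e1, mul_pow, mul_pow, inv_pow, inv_pow]
  field_simp

/-- A line bundle induced from an ample line bundle by a fibration has a globally generated power. -/
theorem gg_of_induces {W : Type*} [NormedAddCommGroup W] [NormedSpace ℂ W] [FiniteDimensional ℂ W]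
    {Δ : Subgroup (W ≃ᵃ[ℂ] W)} {π : V →ₗ[ℂ] W} (hfib : IsFibration Γ Δ π) (hi : Induces L Δ π) :
    ∃ N : ℕ, 1 ≤ N ∧ IsGloballyGenerated (L.pow N) := by
  obtain ⟨m, hm, A, HA, hA, hpA, h, hh, hne, heq⟩ := hi
  obtain ⟨N, hN, hg⟩ := ample_gg hfib.base hA hpA
  refine ⟨m * N, Nat.mul_pos hm hN, fun v => ?_⟩
  obtain ⟨s, hs, hs0⟩ := hg (π v)
  have hπ : Differentiable ℂ fun v => π v := (LinearMap.toContinuousLinearMap π).differentiable
  refine ⟨fun v => s (π v) * ((h v)⁻¹) ^ N, ⟨(hs.holo.comp hπ).mul ((hh.inv hne).pow N),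
    fun γ w => ?_⟩, mul_ne_zero hs0 (pow_ne_zero _ (inv_ne_zero (hne v)))⟩
  obtain ⟨δ, hδ, hδπ⟩ := hfib.maps _ γ.2
  have h1 := heq γ ⟨δ, hδ⟩ hδπ w
  have h2 := hs.eq ⟨δ, hδ⟩ (π w)
  change s (δ (π w)) = A.e ⟨δ, hδ⟩ (π w) ^ N * s (π w) at h2
  change h ((γ : V ≃ᵃ[ℂ] V) w) * L.e γ w ^ m = A.e ⟨δ, hδ⟩ (π w) * h w at h1
  change s (π ((γ : V ≃ᵃ[ℂ] V) w)) * ((h ((γ : V ≃ᵃ[ℂ] V) w))⁻¹) ^ N
    = L.e γ w ^ (m * N) * (s (π w) * ((h w)⁻¹) ^ N)
  have h3 := hne w
  have h4 := hne ((γ : V ≃ᵃ[ℂ] V) w)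
  have h5 : A.e ⟨δ, hδ⟩ (π w) = h ((γ : V ≃ᵃ[ℂ] V) w) * L.e γ w ^ m * (h w)⁻¹ := by
    rw [h1, mul_assoc, mul_inv_cancel₀ h3, mul_one]
  rw [← hδπ, h2, h5, mul_pow, mul_pow, ← pow_mul, inv_pow, inv_pow]
  field_simp

end

end Pool.Agent.X324.SA
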