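import Pool.Agent.X324.CG.Fin
import Pool.Agent.X302.SA.Bpf

/-!
# Nef sheaves on `(A × F) / G` with semiample degree
-/

set_option autoImplicit false
set_option linter.unusedSectionVars false

namespace Pool.Agent.X324.SA

open Finset
open Pool.Agent.W594.SYZ2 Pool.Agent.W594.SYZ2.TQ Pool.Agent.TH735.AQ
open Pool.Agent.X324.CF Pool.Agent.X324.CG
open Pool.Agent.X302.SA (IsGloballyGenerated exists_gg gg_of_nef)

variable {V E R : Type*} [NormedAddCommGroup V] [NormedSpace ℂ V] [FiniteDimensional ℂ V]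
  [NormedAddCommGroup E] [NormedSpace ℂ E] [CommRing R] [IsDomain R]
  [Algebra ℂ R] {ρ : ℕ}
  {𝒜 : Cl ρ → Submodule ℂ R} [GradedAlgebra 𝒜] {Γ : Grp V R}
  {u : Cl ρ} {j : E →ₗ[ℂ] V}

/-- Sections of a sheaf given by a section of a line bundle on the quotient of `V` and an invariant
section on `F`. -/
theorem powSection (hQ : IsQuotient 𝒜 u Γ) [Fintype (gal Γ)] {𝓛 : Sheaf 𝒜 Γ}
    {M : LineBundle (base Γ)} {s : V → ℂ} (hs : M.IsSection s) {β : Cl ρ} (hβ : Inv 𝒜 Γ β)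
    {N k : ℕ} (hdeg : N • 𝓛.deg = Nat.card (gal Γ) • (k • β))
    (he : ∀ (γ : Γ) (v : V), 𝓛.e γ v ^ N = M.e ⟨γ.1.1, mem_base γ.2⟩ v ^ k)
    {r : R} (hr : r ∈ 𝒜 (k • β)) :
    𝓛.IsPowSection N fun v => (s v ^ k) • nrm (gal Γ) r where
  mem := fun v => by
    have h1 := nrm_mem (𝒜 := 𝒜) (K := gal Γ)
      (fun φ hφ r hr => gal_mem hQ (hβ.nsmul k) hφ hr) hr
    rw [← Nat.card_eq_fintype_card, ← hdeg] at h1
    exact (𝒜 _).smul_mem _ h1
  holo := fun ℓ => by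
    have h1 : (fun v => ℓ ((s v ^ k) • nrm (gal Γ) r)) = fun v => s v ^ k * ℓ (nrm (gal Γ) r) := by
      funext v
      rw [map_smul, smul_eq_mul]
    rw [h1]
    exact (hs.holo.pow k).mul_const _
  eq := fun γ v => by
    have h1 := hs.eq ⟨γ.1.1, mem_base γ.2⟩ v
    change s (γ.1.1 v) = _ at h1
    rw [map_smul, nrm_fix (mem_gal γ.2), h1, mul_pow, he, mul_smul]

/-- The point of the construction: the sheaf is semiample if its torus part has a globally generated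
power and if its degree is semiample. -/
theorem semiample_of (hQ : IsQuotient 𝒜 u Γ) {𝓛 : Sheaf 𝒜 Γ}
    {M : LineBundle (base Γ)} (hM : IsGloballyGenerated M) {β : Cl ρ} (hβ : Inv 𝒜 Γ β)
    (hsa : SemiampleF 𝒜 u β) {N : ℕ} (hN : 0 < N)
    (hdeg : N • 𝓛.deg = Nat.card (gal Γ) • β)
    (he : ∀ (γ : Γ) (v : V), 𝓛.e γ v ^ N = M.e ⟨γ.1.1, mem_base γ.2⟩ v) :
    𝓛.IsSemiample u := by
  classical
  have := hQ.fin_gal
  have : Fintype (gal Γ) := Fintype.ofFinite _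
  obtain ⟨k, hk, h1⟩ := hsa
  refine ⟨N * k, Nat.mul_pos hN hk, fun v p hp => ?_⟩
  obtain ⟨s, hs, hs0⟩ := hM v
  obtain ⟨r, hr, hr0⟩ := exists_nonvanish (K := gal Γ) (𝒜 := 𝒜) (β := k • β) (p := p) fun φ =>
    h1 _ (semistable_comp hQ hp φ.2)
  refine ⟨_, powSection hQ hs hβ (N := N * k) (k := k) ?_ ?_ hr, ?_⟩
  · rw [mul_comm, mul_smul, hdeg, smul_comm]
  · intro γ v
    rw [pow_mul, he]
  · rw [map_smul, smul_eq_mul]
    exact mul_ne_zero (pow_ne_zero _ hs0) hr0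

/-- A sheaf with semidefinite Chern form and semiample degree is numerically semiample. -/
theorem exists_num (D : Base 𝒜 (Fin.elim0 : Fin 0 → Cl ρ)) (hQ : IsQuotient 𝒜 u Γ)
    {𝓛 : Sheaf 𝒜 Γ} {H : V → V → ℂ} (hc : 𝓛.IsChern H) (hn : IsNefForm H)
    (hsa : SemiampleF 𝒜 u 𝓛.deg) :
    ∃ m : ℕ, 0 < m ∧ ∃ 𝓜 : Sheaf 𝒜 Γ, 𝓜.IsSemiample u ∧
      𝓜.IsChern (fun v w => (m : ℂ) * H v w) ∧ 𝓜.deg = m • 𝓛.deg := by
  have hn' : IsNefForm (fun v w => (expo Γ : ℂ) * H v w) := by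
    intro v
    have e1 : (expo Γ : ℂ) = ((expo Γ : ℝ) : ℂ) := by push_cast; rfl
    rw [e1, Complex.re_ofReal_mul]
    exact mul_nonneg (Nat.cast_nonneg _) (hn v)
  obtain ⟨m, hm, M, hM, hg⟩ := exists_gg hQ.torus (𝓛.toLB_chern hQ hc) hn'
  set a : ℕ := Nat.card (Lin (base Γ)) * m with ha
  have hinv : Inv 𝒜 Γ (a • 𝓛.deg) := 𝓛.inv.nsmul a
  refine ⟨expo Γ * m, Nat.mul_pos (expo_pos hQ) hm,
    (Sheaf.ofLB M : Sheaf 𝒜 Γ).tensor (ofDeg D hQ (a • 𝓛.deg) hinv), ?_, ?_, ?_⟩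
  · refine semiample_of hQ hg hinv (hsa.nsmul a) one_pos ?_ ?_
    · change 1 • ((0 : Cl ρ) + Nat.card (gal Γ) • (a • 𝓛.deg)) = _
      rw [one_smul, zero_add]
    · intro γ v
      change (M.e ⟨γ.1.1, mem_base γ.2⟩ v * 1) ^ 1 = _
      rw [mul_one, pow_one]
  · have h1 := Sheaf.chern_tensor (Sheaf.ofLB_chern (𝒜 := 𝒜) hM)
      (ofDeg_chern (D := D) (hQ := hQ) (hβ := hinv))
    have h2 : (fun v w => ((expo Γ * m : ℕ) : ℂ) * H v w)
        = fun v w => (m : ℂ) * ((expo Γ : ℂ) * H v w) + 0 := by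
      funext v w
      push_cast
      ring
    rw [h2]
    exact h1
  · change (0 : Cl ρ) + Nat.card (gal Γ) • (a • 𝓛.deg) = _
    rw [zero_add, smul_smul, ha, expo]
    congr 1
    ring

/-- If `H^1(X, O_X) = 0` then a sheaf with semidefinite Chern form and semiample degree is
semiample. -/
theorem semiample_of_nef (hQ : IsQuotient 𝒜 u Γ) (h01 : HOneZero (base Γ))
    {𝓛 : Sheaf 𝒜 Γ} {H : V → V → ℂ} (hc : 𝓛.IsChern H) (hn : IsNefForm H)
    (hsa : SemiampleF 𝒜 u 𝓛.deg) : 𝓛.IsSemiample u := by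
  have hn' : IsNefForm (fun v w => (expo Γ : ℂ) * H v w) := by
    intro v
    have e1 : (expo Γ : ℂ) = ((expo Γ : ℝ) : ℂ) := by push_cast; rfl
    rw [e1, Complex.re_ofReal_mul]
    exact mul_nonneg (Nat.cast_nonneg _) (hn v)
  obtain ⟨m, hm, hg⟩ := gg_of_nef hQ.torus h01 (𝓛.toLB_chern hQ hc) hn'
  set a : ℕ := Nat.card (Lin (base Γ)) * m with ha
  refine semiample_of hQ hg (𝓛.inv.nsmul a) (hsa.nsmul a) (N := expo Γ * m)
    (Nat.mul_pos (expo_pos hQ) hm) ?_ ?_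
  · rw [smul_smul, ha, expo]
    congr 1
    ring
  · intro γ v
    change _ = ((𝓛.toLB hQ).e ⟨γ.1.1, mem_base γ.2⟩ v) ^ m
    rw [Sheaf.toLB_e, pow_mul]

end Pool.Agent.X324.SA
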