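import Pool.Agent.X324.SA.Nef
import Pool.Agent.X324.SA.Ample
import Pool.Agent.TH735.AQ.Crit

/-!
# Nef sheaves on `(A × F) / G` with sections
-/

set_option autoImplicit false
set_option linter.unusedSectionVars false

namespace Pool.Agent.X324.SA

open Finset
open Pool.Agent.W594.SYZ2 Pool.Agent.W594.SYZ2.TQ Pool.Agent.TH735.AQ
open Pool.Agent.X324.CF Pool.Agent.X324.CG
open Pool.Agent.X302.SA (IsGloballyGenerated)
open Pool.Agent.Y167 (section_ker)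

section LB

variable {V : Type*} [NormedAddCommGroup V] [NormedSpace ℂ V] [FiniteDimensional ℂ V]
  {Γ₀ : Subgroup (V ≃ᵃ[ℂ] V)} {L : LineBundle Γ₀} {H : V → V → ℂ} {F : V → ℂ}

theorem herm_mul (hH : IsHermitian H) (m : ℕ) : IsHermitian (fun v w => (m : ℂ) * H v w) := by
  refine ⟨?_, ?_, ?_⟩
  · intro u v w
    rw [hH.add_left, mul_add]
  · intro c v w
    rw [hH.smul_left]
    ring
  · intro v w
    rw [map_mul, ← hH.symm, Complex.conj_natCast]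

theorem re_mul (m : ℕ) (z : ℂ) : ((m : ℂ) * z).re = (m : ℝ) * z.re := by
  have e2 : (m : ℂ) = ((m : ℝ) : ℂ) := by push_cast; rfl
  rw [e2, Complex.re_ofReal_mul]

theorem pot_pow (hF : IsPot L H F) (m : ℕ) :
    IsPot (L.pow m) (fun v w => (m : ℂ) * H v w) (fun v => (m : ℂ) * F v) := by
  refine ⟨hF.1.const_mul _, fun γ v => ?_⟩
  change ‖L.e γ v ^ m‖ ^ 2 = _
  rw [norm_pow, ← pow_mul, mul_comm, pow_mul, hF.2, ← Real.exp_nat_mul]
  congr 1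
  rw [re_mul, re_mul, re_mul, re_mul]
  ring

/-- A nonzero section of a power makes the character on the kernel torsion. -/
theorem chi_of_section (hΓ : IsTorusQuotient Γ₀) (hH : IsHermitian H) (hF : IsPot L H F) {m : ℕ}
    {s : V → ℂ} (hs : (L.pow m).IsSection s) {v₀ : V} (h0 : s v₀ ≠ 0) {t : V}
    (ht : t ∈ latt Γ₀) (htK : t ∈ ker hH) : chi L F t ^ m = 1 := by
  have htK' : t ∈ ker (herm_mul hH m) := fun w => by
    rw [htK w, mul_zero]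
  have h1 := section_ker hΓ (herm_mul hH m) (pot_pow hF m) hs htK' v₀
  have h2 := hs.eq (tr t ht) v₀
  rw [tr_apply] at h2
  change s (t + v₀) = L.e (tr t ht) v₀ ^ m * s v₀ at h2
  rw [add_comm v₀ t, h2] at h1
  have h3 : L.e (tr t ht) v₀ ^ m * Complex.exp (-((m : ℂ) * F (t + v₀)))
      = Complex.exp (-((m : ℂ) * F v₀)) := by
    refine mul_left_cancel₀ h0 ?_
    rw [← h1]
    ring
  rw [← tw_tr_ker hH hF ht htK v₀, tw, tr_apply, mul_pow, ← Complex.exp_nat_mul]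
  have h4 : (m : ℂ) * (F v₀ - F (t + v₀)) = -((m : ℂ) * F (t + v₀)) + (m : ℂ) * F v₀ := by ring
  rw [h4, Complex.exp_add, ← mul_assoc, h3, ← Complex.exp_add, neg_add_cancel, Complex.exp_zero]

theorem torsion_of_chi' (hH : IsHermitian H) (hF : IsPot L H F) {m : ℕ} (hm : 1 ≤ m)
    (h : ∀ b ∈ latt Γ₀, b ∈ ker hH → chi L F b ^ m = 1) : TorsionOnKernel L H := by
  refine ⟨m, hm, fun v => Complex.exp ((m : ℂ) * F v), (hF.1.const_mul _).cexp,
    fun v => Complex.exp_ne_zero _, fun b hb hbK v _ => ?_⟩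
  have hb' : b ∈ latt Γ₀ := hb
  have hbK' : b ∈ ker hH := hbK
  have h1 := h b hb' hbK'
  rw [← tw_tr_ker hH hF hb' hbK' v, tw, tr_apply, mul_pow, ← Complex.exp_nat_mul] at h1
  change Complex.exp ((m : ℂ) * F (b + v)) = L.e (tr b hb') v ^ m * Complex.exp ((m : ℂ) * F v)
  have h2 : (m : ℂ) * F v = (m : ℂ) * (F v - F (b + v)) + (m : ℂ) * F (b + v) := by ring
  rw [h2, Complex.exp_add, ← mul_assoc, h1, one_mul]

theorem chi_nsmul (hH : IsHermitian H) (hF : IsPot L H F) {b : V} (hb : b ∈ latt Γ₀)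
    (hbK : b ∈ ker hH) (k : ℕ) : chi L F (k • b) = chi L F b ^ k := by
  induction k with
  | zero => rw [zero_smul, pow_zero]; exact chi_zero
  | succ k ih =>
    rw [succ_nsmul, chi_add hH hF ((latt Γ₀).nsmul_mem hb k) ((ker hH).nsmul_mem hbK k) hb hbK, ih,
      pow_succ]

end LB

variable {V E R : Type*} [NormedAddCommGroup V] [NormedSpace ℂ V] [FiniteDimensional ℂ V]
  [NormedAddCommGroup E] [NormedSpace ℂ E] [FiniteDimensional ℂ E] [CommRing R] [IsDomain R]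
  [Algebra ℂ R] {ρ : ℕ}
  {𝒜 : Cl ρ → Submodule ℂ R} [GradedAlgebra 𝒜] {Γ : Grp V R}
  {u : Cl ρ} {H : V → V → ℂ} {F : V → ℂ}

theorem pot_toLB (hQ : IsQuotient 𝒜 u Γ) {𝓛 : Sheaf 𝒜 Γ} (hF : Differentiable ℂ F)
    (hFe : ∀ (γ : Γ) (v : V), ‖𝓛.e γ v‖ ^ 2 = Real.exp (Real.pi * (H (γ.1.1 v) (γ.1.1 v)).re +
      2 * (F (γ.1.1 v)).re - (Real.pi * (H v v).re + 2 * (F v).re))) :
    IsPot (𝓛.toLB hQ) (fun v w => (expo Γ : ℂ) * H v w) (fun v => (expo Γ : ℂ) * F v) := by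
  refine ⟨hF.const_mul _, fun b v => ?_⟩
  have h1 : (b : V ≃ᵃ[ℂ] V) = (Sheaf.lift b).1.1 := (Sheaf.lift_spec b).symm
  change ‖𝓛.e (Sheaf.lift b) v ^ expo Γ‖ ^ 2 = _
  rw [norm_pow, ← pow_mul, mul_comm, pow_mul, hFe, ← Real.exp_nat_mul, h1]
  congr 1
  rw [re_mul, re_mul, re_mul, re_mul]
  ring

theorem pot_resT {𝓛 : Sheaf 𝒜 Γ} (hF : Differentiable ℂ F)
    (hFe : ∀ (γ : Γ) (v : V), ‖𝓛.e γ v‖ ^ 2 = Real.exp (Real.pi * (H (γ.1.1 v) (γ.1.1 v)).re +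
      2 * (F (γ.1.1 v)).re - (Real.pi * (H v v).re + 2 * (F v).re))) :
    IsPot 𝓛.resT H F := ⟨hF, fun t v => hFe ⟨(t.1, 1), t.2.2⟩ v⟩

theorem chi_toLB (hQ : IsQuotient 𝒜 u Γ) (𝓛 : Sheaf 𝒜 Γ) {t : V} (ht : t ∈ latt (trans Γ)) :
    chi (𝓛.toLB hQ) (fun v => (expo Γ : ℂ) * F v) t = chi 𝓛.resT F t ^ expo Γ := by
  rw [chi_eq (latt_trans_le ht), chi_eq ht, tw, tw, mul_pow, ← Complex.exp_nat_mul]
  have h1 := Sheaf.toLB_e hQ 𝓛 ⟨(AffineEquiv.constVAdd ℂ V t, 1), mem_latt_trans.1 ht⟩ 0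
  have h2 : (𝓛.toLB hQ).e (tr t (latt_trans_le ht)) 0 = (𝓛.resT.e (tr t ht) 0) ^ expo Γ := h1
  rw [h2]
  congr 2
  rw [tr_apply, tr_apply]
  ring

/-- A nef sheaf is semiample if its degree is semiample and it is torsion on the kernel of its
Chern form. -/
theorem semi_of_chi (hQ : IsQuotient 𝒜 u Γ) {𝓛 : Sheaf 𝒜 Γ} (hH : IsHermitian H)
    (hF : Differentiable ℂ F)
    (hFe : ∀ (γ : Γ) (v : V), ‖𝓛.e γ v‖ ^ 2 = Real.exp (Real.pi * (H (γ.1.1 v) (γ.1.1 v)).re +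
      2 * (F (γ.1.1 v)).re - (Real.pi * (H v v).re + 2 * (F v).re)))
    (hn : IsNefForm H) (hsa : SemiampleF 𝒜 u 𝓛.deg) {m : ℕ} (hm : 0 < m)
    (hchi : ∀ t ∈ latt (trans Γ), t ∈ ker hH → chi 𝓛.resT F t ^ m = 1) : 𝓛.IsSemiample u := by
  have hexp := expo_pos hQ
  have hexpc : (expo Γ : ℂ) ≠ 0 := by exact_mod_cast hexp.ne'
  have := hQ.fin_gal
  have hcard : 0 < Nat.card (gal Γ) := Nat.card_pos
  have hn' : IsNefForm (fun v w => (expo Γ : ℂ) * H v w) := by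
    intro v
    rw [re_mul]
    exact mul_nonneg (Nat.cast_nonneg _) (hn v)
  have hpot := pot_toLB hQ (𝓛 := 𝓛) hF hFe
  have hHe := herm_mul hH (expo Γ)
  have htor : TorsionOnKernel (𝓛.toLB hQ) (fun v w => (expo Γ : ℂ) * H v w) := by
    refine torsion_of_chi' hHe hpot (m := Nat.card (gal Γ) * m) (Nat.mul_pos hcard hm)
      fun b hb hbK => ?_
    have hbK' : b ∈ ker hH := fun w => by
      have h1 : (expo Γ : ℂ) * H b w = 0 := hbK w
      exact (mul_eq_zero.1 h1).resolve_left hexpc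
    have ht := card_smul_latt hQ hb
    have h1 := hchi _ ht ((ker hH).nsmul_mem hbK' _)
    rw [pow_mul, ← chi_nsmul hHe hpot hb hbK, chi_toLB hQ 𝓛 ht, ← pow_mul, mul_comm, pow_mul, h1,
      one_pow]
  have hss := semiample_of_torsion hQ.torus ⟨hHe, _, hpot.1, hpot.2⟩ hn' htor
  obtain ⟨n, Δ, π, hfib, hind⟩ := hss
  obtain ⟨N, hN, hg⟩ := gg_of_induces hfib hind
  set a : ℕ := Nat.card (Lin (base Γ)) * N with ha
  refine semiample_of hQ hg (𝓛.inv.nsmul a) (hsa.nsmul a) (N := expo Γ * N)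
    (Nat.mul_pos hexp hN) ?_ ?_
  · rw [smul_smul, ha, expo]
    congr 1
    ring
  · intro γ v
    change _ = ((𝓛.toLB hQ).e ⟨γ.1.1, mem_base γ.2⟩ v) ^ N
    rw [Sheaf.toLB_e, pow_mul]

/-- A nonzero section of a power makes the sheaf torsion on the kernel of the Chern form. -/
theorem chi_of_pow (hQ : IsQuotient 𝒜 u Γ) {𝓛 : Sheaf 𝒜 Γ} (hH : IsHermitian H)
    (hpot : IsPot 𝓛.resT H F) {m : ℕ} {f : V → R} (hf : 𝓛.IsPowSection m f) {v₀ : V}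
    (h0 : f v₀ ≠ 0) {t : V} (ht : t ∈ latt (trans Γ)) (htK : t ∈ ker hH) :
    chi 𝓛.resT F t ^ m = 1 := by
  obtain ⟨ℓ, hℓ⟩ : ∃ ℓ : R →ₗ[ℂ] ℂ, ℓ (f v₀) ≠ 0 := by
    by_contra hcon
    push Not at hcon
    exact h0 ((Module.forall_dual_apply_eq_zero_iff ℂ _).1 hcon)
  have hs : (𝓛.resT.pow m).IsSection fun v => ℓ (f v) :=
    { holo := hf.holo ℓ
      eq := fun t v => by
        have h1 := hf.eq ⟨(t.1, 1), t.2.2⟩ v
        change f (t.1 v) = _ at h1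
        rw [h1, map_smul, smul_eq_mul]
        rfl }
  exact chi_of_section (trans_torus hQ) hH hpot hs hℓ ht htK

end Pool.Agent.X324.SA
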