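import Pool.Agent.X324.SA.PairDefs
import Pool.Agent.X324.SA.Nef
import Pool.Agent.X324.SA.Ample

/-!
# Log canonical sheaves on `(T × F) / G`
-/

set_option autoImplicit false
set_option linter.unusedSectionVars false

namespace Pool.Agent.X324.SA

open Pool.Agent.W594.SYZ2 Pool.Agent.W594.SYZ2.TQ Pool.Agent.TH735.AQ
open Pool.Agent.X324.CF Pool.Agent.X324.CG
open Pool.Agent.X302.SA (IsGloballyGenerated exists_gg gg_of_nef)

/-! ### Points which are not on mirrors -/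

section Mirror

variable {V : Type*} [NormedAddCommGroup V] [NormedSpace ℂ V] [FiniteDimensional ℂ V]
  {Γ : Subgroup (V ≃ᵃ[ℂ] V)}

theorem countable_latt (hΓ : IsTorusQuotient Γ) : Countable (latt Γ) := by
  have : ProperSpace V := FiniteDimensional.proper ℂ V
  have : DiscreteTopology (latt Γ) := hΓ.discrete
  exact countable_of_Lindelof_of_discrete

theorem countable_group (hΓ : IsTorusQuotient Γ) : Countable Γ := by
  have := countable_latt hΓ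
  have := finite_Lin hΓ
  have hrep : ∀ g : Lin Γ, ∃ γ : V ≃ᵃ[ℂ] V, γ ∈ Γ ∧ γ.linear = g.1 := by
    rintro ⟨g, γ, hγ, h⟩
    exact ⟨γ, hγ, h⟩
  choose rep hrep1 hrep2 using hrep
  have hmem : ∀ γ : Γ, (γ : V ≃ᵃ[ℂ] V) 0 - rep ⟨(γ : V ≃ᵃ[ℂ] V).linear, γ, γ.2, rfl⟩ 0
      ∈ latt Γ := by
    intro γ
    set g : Lin Γ := ⟨(γ : V ≃ᵃ[ℂ] V).linear, γ, γ.2, rfl⟩ with hg
    rw [mem_latt]
    have h1 : AffineEquiv.constVAdd ℂ V ((γ : V ≃ᵃ[ℂ] V) 0 - rep g 0)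
        = (γ : V ≃ᵃ[ℂ] V) * (rep g)⁻¹ := by
      rw [eq_mul_inv_iff_mul_eq]
      apply AffineEquiv.ext
      intro v
      change ((γ : V ≃ᵃ[ℂ] V) 0 - rep g 0) + rep g v = (γ : V ≃ᵃ[ℂ] V) v
      rw [act (rep g) v, act (γ : V ≃ᵃ[ℂ] V) v, hrep2]
      change _ = g.1 v + _
      abel
    rw [h1]
    exact Γ.mul_mem γ.2 (Γ.inv_mem (hrep1 g))
  let f : Γ → Lin Γ × latt Γ := fun γ =>
    (⟨(γ : V ≃ᵃ[ℂ] V).linear, γ, γ.2, rfl⟩, ⟨_, hmem γ⟩)
  have hf : Function.Injective f := by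
    intro γ δ h
    have h1 : (⟨(γ : V ≃ᵃ[ℂ] V).linear, γ, γ.2, rfl⟩ : Lin Γ)
        = ⟨(δ : V ≃ᵃ[ℂ] V).linear, δ, δ.2, rfl⟩ := congrArg Prod.fst h
    have h2 : (γ : V ≃ᵃ[ℂ] V) 0 - rep ⟨(γ : V ≃ᵃ[ℂ] V).linear, γ, γ.2, rfl⟩ 0
        = (δ : V ≃ᵃ[ℂ] V) 0 - rep ⟨(δ : V ≃ᵃ[ℂ] V).linear, δ, δ.2, rfl⟩ 0 :=
      congrArg (fun x : Lin Γ × latt Γ => (x.2 : V)) h
    rw [h1] at h2
    have h3 := sub_left_injective h2
    have h4 : (γ : V ≃ᵃ[ℂ] V).linear = (δ : V ≃ᵃ[ℂ] V).linear := congrArg Subtype.val h1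
    apply Subtype.ext
    apply AffineEquiv.ext
    intro v
    rw [act (γ : V ≃ᵃ[ℂ] V) v, act (δ : V ≃ᵃ[ℂ] V) v, h3, h4]
  exact hf.countable

theorem exists_off_mirror (hΓ : IsTorusQuotient Γ) {U : Set V} (hU : IsOpen U)
    (hne : U.Nonempty) : ∃ v ∈ U, ¬ OnMirror Γ v := by
  have := countable_group hΓ
  have : CompleteSpace V := FiniteDimensional.complete ℂ V
  have : ProperSpace V := FiniteDimensional.proper ℂ V
  have hcont : ∀ γ : V ≃ᵃ[ℂ] V, Continuous γ := by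
    intro γ
    have h1 : (γ : V → V) = fun v => LinearMap.toContinuousLinearMap
        (γ.linear : V →ₗ[ℂ] V) v + γ 0 := by
      funext v
      exact act γ v
    rw [h1]
    exact (ContinuousLinearMap.continuous _).add continuous_const
  let S : {γ : Γ // (γ : V ≃ᵃ[ℂ] V) ≠ 1} → Set V := fun γ => {w | (γ.1 : V ≃ᵃ[ℂ] V) w ≠ w}
  have ho : ∀ γ, IsOpen (S γ) := fun γ => isOpen_ne_fun (hcont _) continuous_id
  have hd : ∀ γ, Dense (S γ) := by
    rintro ⟨γ, hγ⟩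
    rw [Metric.dense_iff]
    intro x r hr
    by_contra hcon
    rw [Set.not_nonempty_iff_eq_empty] at hcon
    have hfix : ∀ y ∈ Metric.ball x r, (γ : V ≃ᵃ[ℂ] V) y = y := by
      intro y hy
      by_contra h
      have : y ∈ Metric.ball x r ∩ S ⟨γ, hγ⟩ := ⟨hy, h⟩
      rw [hcon] at this
      exact this
    apply hγ
    have hx := hfix x (Metric.mem_ball_self hr)
    have hlin : ∀ w, (γ : V ≃ᵃ[ℂ] V).linear w = w := by
      intro w
      obtain ⟨t, ht, ht0⟩ : ∃ t : ℝ, 0 < t ∧ ‖t • w‖ < r := by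
        refine ⟨r / (2 * (‖w‖ + 1)), by positivity, ?_⟩
        rw [norm_smul, Real.norm_of_nonneg (by positivity)]
        have h1 : 0 ≤ ‖w‖ := norm_nonneg w
        have h2 : r / (2 * (‖w‖ + 1)) * ‖w‖ = r * (‖w‖ / (2 * (‖w‖ + 1))) := by ring
        rw [h2]
        have h3 : ‖w‖ / (2 * (‖w‖ + 1)) < 1 := by
          rw [div_lt_one (by positivity)]
          linarith
        nlinarith
      have h1 := hfix (x + t • w) (by
        rw [mem_ball_iff_norm, add_sub_cancel_left]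
        exact ht0)
      rw [act_add, hx] at h1
      have h2 := add_left_cancel h1
      have h3 : (γ : V ≃ᵃ[ℂ] V).linear (t • w) = t • (γ : V ≃ᵃ[ℂ] V).linear w := by
        rw [← Complex.coe_smul, ← Complex.coe_smul, map_smul]
      rw [h3] at h2
      exact smul_right_injective V ht.ne' h2
    apply AffineEquiv.ext
    intro v
    have h1 : v = x + (v - x) := by abel
    conv_lhs => rw [h1]
    rw [act_add, hx, hlin]
    change x + (v - x) = v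
    abel
  have hdense : Dense (⋂ γ, S γ) := dense_iInter_of_isOpen ho hd
  obtain ⟨v, hvU, hv⟩ := hdense.inter_open_nonempty U hU hne
  refine ⟨v, hvU, ?_⟩
  rintro ⟨γ, hγ, hne, ℓ, -, hfix⟩
  have h1 := Set.mem_iInter.1 hv ⟨⟨γ, hγ⟩, hne⟩
  exact h1 (hfix v rfl)

end Mirror

/-! ### Products of holomorphic functions with values in `R` -/

section Prod

variable {V R : Type*} [NormedAddCommGroup V] [NormedSpace ℂ V] [CommRing R] [Algebra ℂ R]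

theorem holo_mul {W : Submodule ℂ R} [FiniteDimensional ℂ W] {f g : V → R} (hf : Holo f)
    (hfW : ∀ v, f v ∈ W) (hg : Holo g) : Holo (fun v => f v * g v) := by
  intro ℓ
  let b := Module.finBasis ℂ W
  have hext : ∀ i, ∃ ℓ' : R →ₗ[ℂ] ℂ, ∀ w : W, ℓ' w = b.coord i w := by
    intro i
    obtain ⟨ℓ', hℓ'⟩ := LinearMap.exists_extend (b.coord i)
    exact ⟨ℓ', fun w => LinearMap.congr_fun hℓ' w⟩
  choose ℓ' hℓ' using hext
  have h1 : ∀ v, f v = ∑ i, ℓ' i (f v) • (b i : R) := by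
    intro v
    have h2 := congrArg Subtype.val (b.sum_repr ⟨f v, hfW v⟩)
    rw [AddSubmonoidClass.coe_finset_sum] at h2
    change _ = f v at h2
    rw [← h2]
    refine Finset.sum_congr rfl fun i _ => ?_
    rw [h2]
    have h3 := hℓ' i ⟨f v, hfW v⟩
    change ℓ' i (f v) = _ at h3
    rw [h3]
    rfl
  have h2 : (fun v => ℓ (f v * g v)) = fun v => ∑ i, ℓ' i (f v) *
      (ℓ ∘ₗ LinearMap.mulLeft ℂ (b i : R)) (g v) := by
    funext v
    conv_lhs => rw [h1 v]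
    rw [Finset.sum_mul, map_sum]
    refine Finset.sum_congr rfl fun i _ => ?_
    rw [smul_mul_assoc, map_smul, smul_eq_mul]
    rfl
  rw [h2]
  exact Differentiable.fun_sum fun i _ => (hf (ℓ' i)).mul (hg _)

theorem holo_prod {ι : Type*} (s : Finset ι) (W : ι → Submodule ℂ R)
    (hW : ∀ i ∈ s, FiniteDimensional ℂ (W i)) (f : ι → V → R) (hf : ∀ i ∈ s, Holo (f i))
    (hfW : ∀ i ∈ s, ∀ v, f i v ∈ W i) : Holo (fun v => ∏ i ∈ s, f i v) := by
  classical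
  induction s using Finset.induction_on with
  | empty =>
    have h1 : (fun v : V => ∏ i ∈ (∅ : Finset ι), f i v) = fun _ => 1 := by
      funext v
      rw [Finset.prod_empty]
    rw [h1]
    exact holo_const 1
  | insert i s hi ih =>
    have h1 : (fun v : V => ∏ j ∈ insert i s, f j v) = fun v => f i v * ∏ j ∈ s, f j v := by
      funext v
      rw [Finset.prod_insert hi]
    rw [h1]
    have := hW i (Finset.mem_insert_self _ _)
    exact holo_mul (W := W i) (hf i (Finset.mem_insert_self _ _))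
      (hfW i (Finset.mem_insert_self _ _))
      (ih (fun j hj => hW j (Finset.mem_insert_of_mem hj))
        (fun j hj => hf j (Finset.mem_insert_of_mem hj))
        (fun j hj => hfW j (Finset.mem_insert_of_mem hj)))

theorem nrm_comp {K : Subgroup (R ≃ₐ[ℂ] R)} [Fintype K] {ψ : R ≃ₐ[ℂ] R} (hψ : ψ ∈ K) (r : R) :
    nrm K (ψ r) = nrm K r := by
  rw [nrm, nrm]
  exact Fintype.prod_equiv (Equiv.mulRight (⟨ψ, hψ⟩ : K)) _ _ fun φ => rfl

theorem nrm_smul {K : Subgroup (R ≃ₐ[ℂ] R)} [Fintype K] (c : ℂ) (r : R) :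
    nrm K (c • r) = c ^ Nat.card K • nrm K r := by
  rw [nrm, nrm, Nat.card_eq_fintype_card, ← Finset.card_univ]
  simp only [map_smul]
  rw [Finset.prod_smul]
  congr 1
  rw [Finset.prod_const]

end Prod

/-! ### Log canonical sheaves -/

variable {V R : Type*} [NormedAddCommGroup V] [NormedSpace ℂ V] [FiniteDimensional ℂ V]
  [CommRing R] [IsDomain R] [Algebra ℂ R] {ρ : ℕ}
  {𝒜 : Cl ρ → Submodule ℂ R} [GradedAlgebra 𝒜] {Γ : Grp V R} {u : Cl ρ}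

/-- The values of the character of the canonical sheaf are roots of unity. -/
theorem char_pow (hQ : IsQuotient 𝒜 u Γ) {𝒦 : Sheaf 𝒜 Γ} {η : V → ℂ} {c : (R ≃ₐ[ℂ] R) → ℂ}
    (hη : ∃ v, η v ≠ 0)
    (heq : ∀ (γ : Γ) (v : V), 𝒦.e γ v * LinearMap.det (γ.1.1.linear : V →ₗ[ℂ] V) * η (γ.1.1 v)
      = c γ.1.2 * η v) (γ : Γ) : c γ.1.2 ^ expo Γ = 1 := by
  obtain ⟨v, hv⟩ := hη
  have hone : c 1 = 1 := by
    have h1 := heq 1 v
    have h2 : ((1 : Γ) : Elt V R).1.linear = LinearEquiv.refl ℂ V := rfl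
    have h3 : (((1 : Γ) : Elt V R).1.linear : V →ₗ[ℂ] V) = LinearMap.id := by
      rw [h2]; rfl
    have h4 : ((1 : Γ) : Elt V R).1 v = v := rfl
    have h5 : ((1 : Γ) : Elt V R).2 = 1 := rfl
    rw [Sheaf.e_one, h3, LinearMap.det_id, h4, h5, one_mul, one_mul] at h1
    exact (mul_right_cancel₀ hv ((one_mul _).trans h1)).symm
  have hmul : ∀ γ δ : Γ, c (γ.1.2 * δ.1.2) = c γ.1.2 * c δ.1.2 := by
    intro γ δ
    have h1 := heq (γ * δ) v
    have h2 := heq γ (δ.1.1 v)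
    have h3 := heq δ v
    have h4 : ((γ * δ : Γ) : Elt V R).1 v = γ.1.1 (δ.1.1 v) := rfl
    have h5 : ((γ * δ : Γ) : Elt V R).2 = γ.1.2 * δ.1.2 := rfl
    have h6 : (((γ * δ : Γ) : Elt V R).1.linear : V →ₗ[ℂ] V)
        = (γ.1.1.linear : V →ₗ[ℂ] V) ∘ₗ (δ.1.1.linear : V →ₗ[ℂ] V) := rfl
    rw [𝒦.mul, h4, h5, h6, LinearMap.det_comp] at h1
    have h7 : c (γ.1.2 * δ.1.2) * η v = c γ.1.2 * c δ.1.2 * η v := by
      rw [← h1]
      calc 𝒦.e γ (δ.1.1 v) * 𝒦.e δ v * (LinearMap.det (γ.1.1.linear : V →ₗ[ℂ] V) *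
            LinearMap.det (δ.1.1.linear : V →ₗ[ℂ] V)) * η (γ.1.1 (δ.1.1 v))
          = (𝒦.e γ (δ.1.1 v) * LinearMap.det (γ.1.1.linear : V →ₗ[ℂ] V) *
              η (γ.1.1 (δ.1.1 v))) * (𝒦.e δ v * LinearMap.det (δ.1.1.linear : V →ₗ[ℂ] V)) := by
            ring
        _ = c γ.1.2 * (𝒦.e δ v * LinearMap.det (δ.1.1.linear : V →ₗ[ℂ] V) * η (δ.1.1 v)) := by
            rw [h2]; ring
        _ = _ := by rw [h3]; ring
    exact mul_right_cancel₀ hv h7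
  have hpow : ∀ k : ℕ, c (γ.1.2 ^ k) = c γ.1.2 ^ k := by
    intro k
    induction k with
    | zero => rw [pow_zero, pow_zero, hone]
    | succ k ih =>
      have h1 := hmul (γ ^ k) γ
      have h2 : ((γ ^ k : Γ) : Elt V R).2 = γ.1.2 ^ k := by
        rw [Subgroup.coe_pow]
        rfl
      rw [h2] at h1
      rw [pow_succ, h1, ih, pow_succ]
  rw [← hpow, gal_pow_expo hQ (mem_gal γ.2), hone]

/-- The norm of a section, composed with a functional, is a section of the line bundle on the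
quotient of `V`. -/
theorem exists_theta (hQ : IsQuotient 𝒜 u Γ) (hfin : ∀ β, FiniteDimensional ℂ (𝒜 β))
    {ℬ : Sheaf 𝒜 Γ} {B : V → R} (hB : ℬ.IsSection B) (hB0 : ∃ v, B v ≠ 0) :
    ∃ θ : V → ℂ, Differentiable ℂ θ ∧ (∃ v, θ v ≠ 0) ∧
      ∀ (γ : Γ) (v : V), θ (γ.1.1 v) = ℬ.e γ v ^ expo Γ * θ v := by
  classical
  have := hQ.fin_gal
  have : Fintype (gal Γ) := Fintype.ofFinite _
  obtain ⟨v₀, hv₀⟩ := hB0
  have h0 : nrm (gal Γ) (B v₀) ≠ 0 := nrm_ne_zero hv₀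
  have h1 : ∃ ℓ : R →ₗ[ℂ] ℂ, ℓ (nrm (gal Γ) (B v₀)) ≠ 0 := by
    by_contra hcon
    push Not at hcon
    exact h0 ((Module.forall_dual_apply_eq_zero_iff ℂ _).1 hcon)
  obtain ⟨ℓ, hℓ⟩ := h1
  have hholo : Holo fun v => nrm (gal Γ) (B v) := by
    refine holo_prod Finset.univ (fun φ : gal Γ => (𝒜 ℬ.deg).map (φ.1 : R →ₐ[ℂ] R).toLinearMap)
      (fun φ _ => ?_) (fun (φ : gal Γ) v => φ.1 (B v)) (fun φ _ ℓ' => ?_) (fun φ _ v => ?_)
    · have := hfin ℬ.deg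
      infer_instance
    · exact hB.holo (ℓ' ∘ₗ (φ.1 : R →ₐ[ℂ] R).toLinearMap)
    · exact ⟨B v, hB.mem v, rfl⟩
  refine ⟨fun v => ℓ (nrm (gal Γ) (B v)) ^ Nat.card (Lin (base Γ)), (hholo ℓ).pow _,
    ⟨v₀, pow_ne_zero _ hℓ⟩, fun γ v => ?_⟩
  change ℓ (nrm (gal Γ) (B (γ.1.1 v))) ^ _ = _
  rw [hB.eq, nrm_smul, nrm_comp (mem_gal γ.2), map_smul, smul_eq_mul, mul_pow, ← pow_mul, expo,
    mul_comm (Nat.card (gal Γ))]

/-- The torus part of a log canonical sheaf with semidefinite Chern form has a globally generated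
power. -/
theorem gg_pair (hQ : IsQuotient 𝒜 u Γ) (hfin : ∀ β, FiniteDimensional ℂ (𝒜 β))
    {𝒦 : Sheaf 𝒜 Γ} {K : Cl ρ} (hK : IsCanonicalSheaf 𝒦 K) {ℬ : Sheaf 𝒜 Γ} {B : V → R}
    (hB : ℬ.IsSection B) (hB0 : ∃ v, B v ≠ 0) (m : ℕ) {H : V → V → ℂ}
    (hc : ((𝒦.pow m).tensor ℬ).IsChern H) (hn : IsNefForm H) :
    ∃ N : ℕ, 1 ≤ N ∧ IsGloballyGenerated ((((𝒦.pow m).tensor ℬ).toLB hQ).pow N) := by
  obtain ⟨-, η, c, hη, heq⟩ := hK
  obtain ⟨θ, hθ, hθ0, hθe⟩ := exists_theta hQ hfin hB hB0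
  have hroot := char_pow hQ (ram_ne_zero hη) heq
  set 𝓛 := (𝒦.pow m).tensor ℬ with h𝓛
  have hn' : IsNefForm (fun v w => (expo Γ : ℂ) * H v w) := by
    intro v
    have e1 : (expo Γ : ℂ) = ((expo Γ : ℝ) : ℂ) := by push_cast; rfl
    rw [e1, Complex.re_ofReal_mul]
    exact mul_nonneg (Nat.cast_nonneg _) (hn v)
  obtain ⟨v₁, hv₁, hv₁'⟩ := exists_off_mirror hQ.torus (isOpen_ne_fun hθ.continuous
    (continuous_const (y := (0 : ℂ)))) hθ0
  obtain ⟨n, Δ, π, -, hfib, hind⟩ := semiample_of_mero hQ.torus (𝓛.toLB_chern hQ hc) hn'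
    (θ := θ) (s := fun v => η v ^ (m * expo Γ)) hθ (hη.holo.pow _) ⟨v₁, hv₁, hv₁'⟩ (by
      intro v hv
      have h1 : η v = 0 := eq_zero_of_pow_eq_zero hv
      obtain ⟨γ, hγ, hne, ℓ, hℓ, hfix⟩ := (hη.zero_iff v).1 h1
      refine ⟨γ, ?_, hne, ℓ, hℓ, hfix⟩
      obtain ⟨δ, hδ, rfl⟩ := hγ
      exact ⟨δ, hδ.1, rfl⟩) (by
      intro b hb v
      obtain ⟨γ, hγ⟩ := Sheaf.exists_lift (⟨AffineEquiv.constVAdd ℂ V b, hb⟩ : base Γ)
      have hγb : γ.1.1 = AffineEquiv.constVAdd ℂ V b := hγ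
      have hγv : γ.1.1 v = b + v := by rw [hγb]; rfl
      have h1 : (𝓛.toLB hQ).e (tr b hb) v = 𝓛.e γ v ^ expo Γ := by
        rw [← Sheaf.toLB_e hQ]
        congr 1
        exact Subtype.ext hγb.symm
      have h2 := hθe γ v
      have h3 := heq γ v
      have h4 : LinearMap.det (γ.1.1.linear : V →ₗ[ℂ] V) = 1 := by
        have h5 : (γ.1.1.linear : V →ₗ[ℂ] V) = LinearMap.id := by
          rw [hγb]
          rfl
        rw [h5, LinearMap.det_id]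
      rw [h4, mul_one, hγv] at h3
      rw [hγv] at h2
      change θ (b + v) * η v ^ (m * expo Γ)
        = (𝓛.toLB hQ).e (tr b hb) v * θ v * η (b + v) ^ (m * expo Γ)
      rw [h1, h2]
      change ℬ.e γ v ^ expo Γ * θ v * η v ^ (m * expo Γ)
        = (𝒦.e γ v ^ m * ℬ.e γ v) ^ expo Γ * θ v * η (b + v) ^ (m * expo Γ)
      have h6 : (𝒦.e γ v * η (b + v)) ^ (m * expo Γ) = η v ^ (m * expo Γ) := by
        rw [h3, mul_pow, mul_comm m, pow_mul, hroot γ, one_pow, one_mul]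
      rw [← h6, mul_pow (𝒦.e γ v) (η (b + v)), mul_pow (𝒦.e γ v ^ m), ← pow_mul]
      ring)
  exact gg_of_induces hfib hind

/-- A log canonical sheaf with semidefinite Chern form and semiample degree is semiample. -/
theorem semiample_pair (hQ : IsQuotient 𝒜 u Γ) (hfin : ∀ β, FiniteDimensional ℂ (𝒜 β))
    {𝒦 : Sheaf 𝒜 Γ} {K : Cl ρ} (hK : IsCanonicalSheaf 𝒦 K) {ℬ : Sheaf 𝒜 Γ} {B : V → R}
    (hB : ℬ.IsSection B) (hB0 : ∃ v, B v ≠ 0) (m : ℕ) {H : V → V → ℂ}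
    (hc : ((𝒦.pow m).tensor ℬ).IsChern H) (hn : IsNefForm H)
    (hsa : SemiampleF 𝒜 u ((𝒦.pow m).tensor ℬ).deg) :
    ((𝒦.pow m).tensor ℬ).IsSemiample u := by
  obtain ⟨N, hN, hg⟩ := gg_pair hQ hfin hK hB hB0 m hc hn
  set 𝓛 := (𝒦.pow m).tensor ℬ with h𝓛
  set a : ℕ := Nat.card (Lin (base Γ)) * N with ha
  refine semiample_of hQ hg (𝓛.inv.nsmul a) (hsa.nsmul a) (N := expo Γ * N)
    (Nat.mul_pos (expo_pos hQ) hN) ?_ ?_
  · rw [smul_smul, ha, expo]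
    congr 1
    ring
  · intro γ v
    change _ = ((𝓛.toLB hQ).e ⟨γ.1.1, mem_base γ.2⟩ v) ^ N
    rw [Sheaf.toLB_e, pow_mul]

/-- The Chern form of a semiample sheaf is semidefinite. -/
theorem nef_of_semiample (hQ : IsQuotient 𝒜 u Γ) (hpt : ∃ p, Semistable 𝒜 u p) {𝓛 : Sheaf 𝒜 Γ}
    {H : V → V → ℂ} (hc : 𝓛.IsChern H) (hs : 𝓛.IsSemiample u) : IsNefForm H := by
  obtain ⟨m, hm, h1⟩ := hs
  obtain ⟨p, hp⟩ := hpt
  obtain ⟨f, hf, hf0⟩ := h1 0 p hp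
  intro v
  have hmr : (0 : ℝ) < m := by exact_mod_cast hm
  have h4 := Sheaf.nef_of_section hQ (Sheaf.chern_pow hc m) hf.sec ⟨0, fun h => hf0 (by
    rw [h, map_zero])⟩ v
  have e2 : (m : ℂ) = ((m : ℝ) : ℂ) := by push_cast; rfl
  rw [e2, Complex.re_ofReal_mul] at h4
  exact nonneg_of_mul_nonneg_right h4 hmr

/-- The degree of a semiample sheaf is semiample. -/
theorem deg_of_semiample {𝓛 : Sheaf 𝒜 Γ} (hs : 𝓛.IsSemiample u) : SemiampleF 𝒜 u 𝓛.deg := by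
  obtain ⟨m, hm, h1⟩ := hs
  refine ⟨m, hm, fun p hp => ?_⟩
  obtain ⟨f, hf, hf0⟩ := h1 0 p hp
  exact ⟨f 0, hf.mem 0, hf0⟩

end Pool.Agent.X324.SA
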