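import Pool.Agent.X324.CF.Defs

/-!
# The canonical sheaf of `(T × F) / G`
-/

set_option autoImplicit false

namespace Pool.Agent.X324.SA

open Pool.Agent.W594.SYZ2 Pool.Agent.TH735.AQ Pool.Agent.X324.CF

/-- `𝒦` is the canonical sheaf of `X = (V × F) / Γ`. Here `K` is the canonical class of `F` minus the
class of the ramification divisor of `F → F / G'`, where `G'` is the group of the `φ` with `(1, φ)` in
`Γ`; the function `η` on `V` defines the ramification divisor of `V → V / vert 𝒜 Γ`, so that `η` and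
`G'` together give the ramification divisor of `V × F → X`; and `c φ` is the factor by which the action
of `φ` on the forms on `F` differs from that on `R`. The section `g` of `𝒦` is the form
`η g dv ⊗ ω`, which is invariant under `Γ`. -/
structure IsCanonicalSheaf {V R : Type*} [NormedAddCommGroup V] [NormedSpace ℂ V] [CommRing R]
    [Algebra ℂ R] {ρ : ℕ} {𝒜 : Cl ρ → Submodule ℂ R} {Γ : Grp V R} (𝒦 : Sheaf 𝒜 Γ) (K : Cl ρ) :
    Prop where
  deg : 𝒦.deg = K
  eq : ∃ (η : V → ℂ) (c : (R ≃ₐ[ℂ] R) → ℂ), IsRamification (vert 𝒜 Γ) η ∧ ∀ (γ : Γ) (v : V),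
    𝒦.e γ v * LinearMap.det (γ.1.1.linear : V →ₗ[ℂ] V) * η (γ.1.1 v) = c γ.1.2 * η v

end Pool.Agent.X324.SA
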