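import Pool.Agent.X324.SA.Pair

/-!
# Sections of powers of log canonical sheaves on `(T × F) / G`
-/

set_option autoImplicit false
set_option linter.unusedSectionVars false

namespace Pool.Agent.X324.SA

open Pool.Agent.W594.SYZ2 Pool.Agent.W594.SYZ2.TQ Pool.Agent.TH735.AQ
open Pool.Agent.X324.CF Pool.Agent.X324.CG

variable {V E R : Type*} [NormedAddCommGroup V] [NormedSpace ℂ V] [FiniteDimensional ℂ V]
  [NormedAddCommGroup E] [NormedSpace ℂ E]
  [CommRing R] [IsDomain R] [Algebra ℂ R] {ρ : ℕ}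
  {𝒜 : Cl ρ → Submodule ℂ R} [GradedAlgebra 𝒜] {Γ : Grp V R} {u : Cl ρ} {j : E →ₗ[ℂ] V}

/-- A pseudoeffective class has a semidefinite form and a pseudoeffective degree. -/
theorem psef_sub (hQ : IsQuotient 𝒜 u Γ) {x : N1 𝒜 Γ j}
    (hx : x ∈ closure (effCone 𝒜 Γ j)) :
    (∀ e, 0 ≤ ((val x).1 e e).re) ∧
      (val x).2 ∈ closure (coneHull {b | ∃ β, (∃ r ∈ 𝒜 β, r ≠ 0) ∧ b = real β}) := by
  have hval : Continuous (val : N1 𝒜 Γ j → Pairs E ρ) := continuous_subtype_val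
  constructor
  · intro e
    have hcl : IsClosed {a : N1 𝒜 Γ j | 0 ≤ ((val a).1 e e).re} := by
      refine isClosed_le continuous_const (Complex.continuous_re.comp ?_)
      exact (continuous_apply e).comp ((continuous_apply e).comp (continuous_fst.comp hval))
    refine closure_minimal (fun a ha => ?_) hcl hx
    refine hull_ind (p := fun a : N1 𝒜 Γ j => 0 ≤ ((val a).1 e e).re) ?_ ?_ ?_ ?_ ha
    · exact le_refl (0 : ℝ)
    · intro a b ha hb
      change 0 ≤ ((val a).1 e e + (val b).1 e e).re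
      rw [Complex.add_re]
      exact add_nonneg ha hb
    · intro t a ht ha
      change 0 ≤ (t • (val a).1 e e).re
      rw [Complex.smul_re]
      exact mul_nonneg ht ha
    · intro a ha
      exact effective_form hQ ha e
  · refine map_mem_closure (f := fun x : N1 𝒜 Γ j => (val x).2) (continuous_snd.comp hval) hx
      fun a ha => ?_
    refine hull_ind (p := fun a : N1 𝒜 Γ j => (val a).2 ∈
      coneHull {b : Fin ρ → ℝ | ∃ β, (∃ r ∈ 𝒜 β, r ≠ 0) ∧ b = real β}) hull_zero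
      (fun _ _ h1 h2 => hull_add h1 h2) (fun _ _ ht h => hull_smul ht h) ?_ ha
    rintro a ⟨𝓛, f, ⟨-, h2⟩, hf, v, hv⟩
    exact hull_mem ⟨𝓛.deg, ⟨f v, hf.mem v, hv⟩, funext h2⟩

/-- A power of a log canonical sheaf with semidefinite Chern form has a nonzero section if a multiple
of the degree is effective. -/
theorem exists_section (hQ : IsQuotient 𝒜 u Γ) (hfin : ∀ β, FiniteDimensional ℂ (𝒜 β))
    {𝒦 : Sheaf 𝒜 Γ} {K : Cl ρ} (hK : IsCanonicalSheaf 𝒦 K) {ℬ : Sheaf 𝒜 Γ} {B : V → R}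
    (hB : ℬ.IsSection B) (hB0 : ∃ v, B v ≠ 0) (m : ℕ) {H : V → V → ℂ}
    (hc : ((𝒦.pow m).tensor ℬ).IsChern H) (hn : IsNefForm H) {k : ℕ} (hk : 0 < k)
    (hr : ∃ r ∈ 𝒜 (k • ((𝒦.pow m).tensor ℬ).deg), r ≠ 0) :
    ∃ N : ℕ, 0 < N ∧ ∃ f, ((𝒦.pow m).tensor ℬ).IsPowSection N f ∧ ∃ v, f v ≠ 0 := by
  classical
  have := hQ.fin_gal
  have : Fintype (gal Γ) := Fintype.ofFinite _
  obtain ⟨N, hN, hg⟩ := gg_pair hQ hfin hK hB hB0 m hc hn
  set 𝓛 := (𝒦.pow m).tensor ℬ with h𝓛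
  obtain ⟨s, hs, hs0⟩ := hg 0
  obtain ⟨r, hr, hr0⟩ := hr
  set a : ℕ := Nat.card (Lin (base Γ)) * N with ha
  have hapos : 0 < a := by
    have := finite_Lin hQ.torus
    exact Nat.mul_pos Nat.card_pos hN
  have hr' : r ^ a ∈ 𝒜 (k • (a • 𝓛.deg)) := by
    have h1 := SetLike.pow_mem_graded a hr
    rwa [smul_comm] at h1
  refine ⟨expo Γ * N * k, Nat.mul_pos (Nat.mul_pos (expo_pos hQ) hN) hk, _,
    powSection hQ hs (𝓛.inv.nsmul a) (N := expo Γ * N * k) (k := k) ?_ ?_ hr', 0, ?_⟩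
  · rw [smul_smul, smul_smul, ha, expo]
    congr 1
    ring
  · intro γ v
    change _ = (((𝓛.toLB hQ).e ⟨γ.1.1, mem_base γ.2⟩ v) ^ N) ^ k
    rw [Sheaf.toLB_e, pow_mul, pow_mul]
  · intro h
    rcases smul_eq_zero.1 h with h1 | h1
    · exact pow_ne_zero _ hs0 h1
    · exact nrm_ne_zero (pow_ne_zero a hr0) h1

end Pool.Agent.X324.SA
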