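import Pool.Agent.X324.SA.Crit

/-!
# Groups which permute the factors of a product transitively
-/

set_option autoImplicit false
set_option linter.unusedSectionVars false

namespace Pool.Agent.X324.SA

open Finset
open Pool.Agent.X324.CF Pool.Agent.X324.CG

/-- The group `Γ` acts transitively on the factors `F i`: for any two factors some element of `Γ` maps
the classes of the first onto the classes of the second. -/
def TransitiveOn {V R κ : Type*} [NormedAddCommGroup V] [NormedSpace ℂ V] [CommRing R] [Algebra ℂ R]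
    {ρ : ℕ} (𝒜 : Cl ρ → Submodule ℂ R) (c : Fin ρ → κ) (Γ : Grp V R) : Prop :=
  ∀ i i' : κ, ∃ γ ∈ Γ, ∃ σ, Induces 𝒜 γ.2 σ ∧ ∀ β, IsOf c i' (σ β) ↔ IsOf c i β

variable {V R : Type*} [NormedAddCommGroup V] [NormedSpace ℂ V] [FiniteDimensional ℂ V]
  [CommRing R] [IsDomain R]
  [Algebra ℂ R] {ρ : ℕ}
  {𝒜 : Cl ρ → Submodule ℂ R} [GradedAlgebra 𝒜] {Γ : Grp V R}
  {u : Cl ρ} {κ : Type*} [DecidableEq κ] [Fintype κ] {c : Fin ρ → κ}

/-- Automorphisms of `F` map semiample classes to semiample classes. -/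
theorem semi_map {φ : R ≃ₐ[ℂ] R} (hA : IsAut 𝒜 u φ) {σ : Cl ρ ≃+ Cl ρ} (hσ : Induces 𝒜 φ σ)
    {β : Cl ρ} (h : SemiampleF 𝒜 u β) : SemiampleF 𝒜 u (σ β) := by
  obtain ⟨m, hm, h1⟩ := h
  refine ⟨m, hm, fun p hp => ?_⟩
  obtain ⟨r, hr, hr0⟩ := h1 (p.comp (φ : R →ₐ[ℂ] R)) ((hA.2 p).1 hp)
  refine ⟨φ r, ?_, hr0⟩
  have h2 := hσ _ r hr
  rwa [map_nsmul] at h2

theorem part_zero' (i : κ) : part c i (0 : Cl ρ) = 0 := by
  rw [← partH_apply, map_zero]

/-- The components of an invariant class are translates of each other. -/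
theorem part_translate (hperm : Permutes 𝒜 c Γ) {β : Cl ρ} (hβ : Inv 𝒜 Γ β) {i i' : κ}
    {γ : Elt V R} (hγ : γ ∈ Γ) {σ : Cl ρ ≃+ Cl ρ} (hσ : Induces 𝒜 γ.2 σ)
    (hst : ∀ β, IsOf c i' (σ β) ↔ IsOf c i β) : part c i' β = σ (part c i β) := by
  obtain ⟨π, hπ⟩ := hperm γ hγ σ hσ
  have h1 : σ β = β := hβ γ hγ σ hσ
  have h2 : ∀ k, k ≠ i → part c i' (σ (part c k β)) = 0 := by
    intro k hk
    by_cases hπi : π k = i'
    · have h3 := hπ k _ (part_BL k β)
      rw [hπi] at h3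
      have h5 : part c k β = 0 := isOf_zero hk (part_BL k β) ((hst _).1 h3)
      rw [h5, map_zero, part_zero']
    · exact part_isOf_ne hπi (hπ k _ (part_BL k β))
  calc part c i' β = part c i' (σ (∑ k, part c k β)) := by rw [sum_part, h1]
    _ = ∑ k, part c i' (σ (part c k β)) := by
      rw [← partH_apply, map_sum, map_sum]
      rfl
    _ = part c i' (σ (part c i β)) :=
      Finset.sum_eq_single i (fun k _ hk => h2 k hk) fun h => absurd (mem_univ _) h
    _ = σ (part c i β) := part_isOf ((hst _).2 (part_BL i β))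

/-- If one component of an invariant class is semiample, then the class is semiample. -/
theorem semi_of_transitive (hQ : IsQuotient 𝒜 u Γ) (hperm : Permutes 𝒜 c Γ)
    (ht : TransitiveOn 𝒜 c Γ) {β : Cl ρ} (hβ : Inv 𝒜 Γ β) (i : κ)
    (h : SemiampleF 𝒜 u (part c i β)) : SemiampleF 𝒜 u β := by
  refine semi_of_parts (c := c) fun i' => ?_
  obtain ⟨γ, hγ, σ, hσ, hst⟩ := ht i i'
  rw [part_translate hperm hβ hγ hσ hst]
  exact semi_map (gal_aut hQ ⟨γ, hγ, rfl⟩) hσ h

end Pool.Agent.X324.SA
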